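import Pool.Agent.N621.SP.Few
import Pool.Agent.H818R2.Limit

/-! Exponents of packings with small clusters (for MP_dbfdb2_gt). -/

open MeasureTheory Metric Filter Set
open scoped Topology
open Pool.Agent.H818R2

namespace Pool.Agent.N621.SP

/-- The supremum of the upper densities of the packings of `ℝ^n` by balls of some radius `r` in
which every finite set of centres with mutual distances `< 2 β r` has at most `K` points. -/
noncomputable def clusterDensity (n : ℕ) (β : ℝ) (K : ℕ) : ℝ :=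
  sSup {δ | ∃ (X : Set (EuclideanSpace ℝ (Fin n))) (r : ℝ), IsPacking X r ∧
    ClusterLE X (2 * β * r) K ∧ upperDensity X r = δ}

lemma clusterDensity_bdd (n : ℕ) (β : ℝ) (K : ℕ) :
    BddAbove {δ | ∃ (X : Set (EuclideanSpace ℝ (Fin n))) (r : ℝ), IsPacking X r ∧
    ClusterLE X (2 * β * r) K ∧ upperDensity X r = δ} := by
  refine ⟨1, ?_⟩
  rintro δ ⟨X, r, -, -, rfl⟩
  exact upperDensity_le_one X r

lemma le_clusterDensity {n : ℕ} {β : ℝ} {K : ℕ} {X : Set (EuclideanSpace ℝ (Fin n))} {r : ℝ}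
    (hX : IsPacking X r) (hK : ClusterLE X (2 * β * r) K) :
    upperDensity X r ≤ clusterDensity n β K :=
  le_csSup (clusterDensity_bdd n β K) ⟨X, r, hX, hK, rfl⟩

lemma clusterDensity_le {n : ℕ} {β : ℝ} (hβ : 0 < β) {K m : ℕ} (hm : 1 ≤ m) :
    clusterDensity n β K ≤ (K + m).choose m * √((m + 1) / (2 * m * β ^ 2)) ^ n := by
  apply csSup_le
  · refine ⟨_, ∅, 1, isPacking_empty, ?_, rfl⟩
    intro Q hQ _
    have : Q = ∅ := by
      rw [← Finset.coe_eq_empty]
      exact subset_empty_iff.1 hQ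
    rw [this]; simp
  · rintro δ ⟨X, r, hX, hK, rfl⟩
    have := cluster_bound hX hβ hK hm
    rwa [finrank_euclideanSpace_fin] at this

lemma choose_le_mul_pow {K m : ℕ} {t : ℝ} (hK : (K : ℝ) ≤ t) (ht : 1 ≤ t) :
    ((K + m).choose m : ℝ) ≤ ((1 + m) * t) ^ m := by
  have h1 : ((K + m).choose m : ℝ) ≤ ((K + m : ℕ) : ℝ) ^ m := by
    exact_mod_cast Nat.choose_le_pow (K + m) m
  refine h1.trans (pow_le_pow_left₀ (by positivity) ?_ m)
  push_cast
  have : (0 : ℝ) ≤ m := Nat.cast_nonneg m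
  nlinarith

lemma tendsto_q {β : ℝ} (hβ : 0 < β) :
    Tendsto (fun m : ℕ => √(((m : ℝ) + 1) / (2 * m * β ^ 2))) atTop (𝓝 (1 / (√2 * β))) := by
  have h1 : Tendsto (fun m : ℕ => (1 + 1 / (m : ℝ)) * (1 / (2 * β ^ 2))) atTop
      (𝓝 ((1 + 0) * (1 / (2 * β ^ 2)))) :=
    (tendsto_const_nhds.add tendsto_one_div_atTop_nhds_zero_nat).mul_const _
  rw [add_zero, one_mul] at h1
  have h2 : Tendsto (fun m : ℕ => √((1 + 1 / (m : ℝ)) * (1 / (2 * β ^ 2)))) atTop
      (𝓝 (√(1 / (2 * β ^ 2)))) := h1.sqrt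
  have h3 : √(1 / (2 * β ^ 2)) = 1 / (√2 * β) := by
    rw [one_div, Real.sqrt_inv, Real.sqrt_mul (by norm_num), Real.sqrt_sq hβ.le, one_div]
  rw [h3] at h2
  refine h2.congr' ?_
  filter_upwards [eventually_ge_atTop 1] with m hm
  have hm0 : (0 : ℝ) < m := by exact_mod_cast hm
  congr 1
  field_simp

/-- Dense packings have exponentially large clusters. -/
theorem threshold {β c : ℝ} (hβ : 0 < β) (h : (2 : ℝ) ^ c < √2 * β) :
    ∃ η : ℝ, 0 < η ∧ ∀ᶠ n : ℕ in atTop, ∀ (X : Set (EuclideanSpace ℝ (Fin n))) (r : ℝ),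
      IsPacking X r → (2 : ℝ) ^ (-(c + η) * n) ≤ upperDensity X r →
      ∃ Q : Finset (EuclideanSpace ℝ (Fin n)), (Q : Set (EuclideanSpace ℝ (Fin n))) ⊆ X ∧
        (∀ x ∈ Q, ∀ y ∈ Q, x ≠ y → dist x y < 2 * β * r) ∧ (2 : ℝ) ^ (η * n) ≤ Q.card := by
  have hs2 : 0 < √(2 : ℝ) := Real.sqrt_pos.2 (by norm_num)
  -- the exponent `θ`
  obtain ⟨θ, hθ, hθ'⟩ : ∃ θ : ℝ, 0 < θ ∧ 1 / (√2 * β) < (2 : ℝ) ^ (-(c + θ)) := by
    have h1 : c < Real.logb 2 (√2 * β) := by
      rwa [Real.lt_logb_iff_rpow_lt (by norm_num) (by positivity)]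
    refine ⟨(Real.logb 2 (√2 * β) - c) / 2, by linarith, ?_⟩
    rw [Real.rpow_neg (by norm_num), one_div]
    apply inv_strictAnti₀ (by positivity)
    rw [← Real.lt_logb_iff_rpow_lt (by norm_num) (by positivity)]
    linarith
  obtain ⟨m, hmq, hm⟩ := (((tendsto_q hβ).eventually (gt_mem_nhds hθ')).and
    (eventually_ge_atTop 1)).exists
  have hm0 : (0 : ℝ) < m := by exact_mod_cast hm
  set η : ℝ := θ / (2 * (m + 1)) with hη
  have hη0 : 0 < η := by positivity
  have hηm : η * (m + 1) = θ / 2 := by rw [hη]; field_simp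
  refine ⟨η, hη0, ?_⟩
  have hlarge : ∀ᶠ n : ℕ in atTop, ((1 : ℝ) + m) ^ m < (2 : ℝ) ^ (θ / 2 * n) := by
    have h1 : Tendsto (fun n : ℕ => ((2 : ℝ) ^ (θ / 2)) ^ n) atTop atTop :=
      tendsto_pow_atTop_atTop_of_one_lt (Real.one_lt_rpow (by norm_num) (by positivity))
    filter_upwards [h1.eventually (eventually_gt_atTop _)] with n hn
    rw [Real.rpow_mul (by norm_num), Real.rpow_natCast]
    exact hn
  filter_upwards [hlarge] with n hn X r hX hd
  by_contra hcon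
  push Not at hcon
  have ht : (1 : ℝ) ≤ (2 : ℝ) ^ (η * n) := Real.one_le_rpow (by norm_num) (by positivity)
  have hcl : ClusterLE X (2 * β * r) ⌊(2 : ℝ) ^ (η * n)⌋₊ := fun Q hQ hQd =>
    Nat.le_floor (hcon Q hQ hQd).le
  have h1 := cluster_bound hX hβ hcl hm
  rw [finrank_euclideanSpace_fin] at h1
  have h2 := choose_le_mul_pow (m := m) (Nat.floor_le (by positivity : (0 : ℝ) ≤ (2 : ℝ) ^ (η * n))) ht
  have h3 : √(((m : ℝ) + 1) / (2 * m * β ^ 2)) ^ n ≤ (2 : ℝ) ^ (-(c + θ) * n) := by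
    rw [Real.rpow_mul (by norm_num), Real.rpow_natCast]
    exact pow_le_pow_left₀ (Real.sqrt_nonneg _) hmq.le n
  have h4 : ((1 + (m : ℝ)) * (2 : ℝ) ^ (η * n)) ^ m = (1 + (m : ℝ)) ^ m * (2 : ℝ) ^ (η * m * n) := by
    rw [mul_pow, ← Real.rpow_natCast ((2 : ℝ) ^ (η * n)) m, ← Real.rpow_mul (by norm_num)]
    congr 2; ring
  have h5 : upperDensity X r < (2 : ℝ) ^ (-(c + η) * n) := by
    calc upperDensity X r ≤ _ := h1
      _ ≤ ((1 + (m : ℝ)) ^ m * (2 : ℝ) ^ (η * m * n)) * (2 : ℝ) ^ (-(c + θ) * n) := by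
          rw [← h4]
          exact mul_le_mul h2 h3 (by positivity) (by positivity)
      _ < ((2 : ℝ) ^ (θ / 2 * n) * (2 : ℝ) ^ (η * m * n)) * (2 : ℝ) ^ (-(c + θ) * n) := by
          apply mul_lt_mul_of_pos_right _ (by positivity)
          exact mul_lt_mul_of_pos_right hn (by positivity)
      _ = (2 : ℝ) ^ (-(c + η) * n) := by
          rw [← Real.rpow_add (by norm_num), ← Real.rpow_add (by norm_num)]
          congr 1
          have : η * m = θ / 2 - η := by linarith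
          rw [this]; ring
  linarith

lemma choose_small {η : ℝ} (hη : 0 < η) : ∃ σ : ℝ, 0 < σ ∧ ∀ n : ℕ, 1 ≤ n → ∀ s : ℕ,
    (s : ℝ) ≤ σ * n → ((n + s).choose s : ℝ) < (2 : ℝ) ^ (η * n) := by
  obtain ⟨y, hy, hy2⟩ : ∃ y : ℕ, (1 + 1 / (y : ℝ)) ^ 2 < (2 : ℝ) ^ (η / 4) ∧ 2 ≤ y := by
    have h1 : Tendsto (fun j : ℕ => (1 + 1 / (j : ℝ)) ^ 2) atTop (𝓝 ((1 + 0) ^ 2)) :=
      (tendsto_const_nhds.add tendsto_one_div_atTop_nhds_zero_nat).pow 2
    rw [add_zero, one_pow] at h1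
    exact ((h1.eventually (gt_mem_nhds (Real.one_lt_rpow (by norm_num) (by positivity)))).and
      (eventually_ge_atTop 2)).exists
  have hy2' : (2 : ℝ) ≤ y := by exact_mod_cast hy2
  have hlog : 0 < Real.logb 2 y := Real.logb_pos (by norm_num) (by linarith)
  refine ⟨min 1 (η / (4 * Real.logb 2 y)), by positivity, fun n hn s hs => ?_⟩
  have hn0 : (0 : ℝ) < n := by exact_mod_cast hn
  have hs1 : (s : ℝ) ≤ n := by
    refine hs.trans ?_
    calc min 1 (η / (4 * Real.logb 2 y)) * (n : ℝ) ≤ 1 * n :=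
          mul_le_mul_of_nonneg_right (min_le_left _ _) hn0.le
      _ = n := one_mul _
  have hsn : s ≤ n := by exact_mod_cast hs1
  have hs2 : (s : ℝ) * Real.logb 2 y ≤ η / 4 * n := by
    have h1 : (s : ℝ) ≤ η / (4 * Real.logb 2 y) * n :=
      hs.trans (mul_le_mul_of_nonneg_right (min_le_right _ _) hn0.le)
    calc (s : ℝ) * Real.logb 2 y ≤ η / (4 * Real.logb 2 y) * n * Real.logb 2 y :=
          mul_le_mul_of_nonneg_right h1 hlog.le
      _ = η / 4 * n := by field_simp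
  have h1 : ((n + s).choose s : ℝ) * (1 / (y : ℝ)) ^ s ≤ (1 + 1 / (y : ℝ)) ^ (n + s) := by
    rw [add_comm (1 : ℝ), add_pow]
    refine le_trans (le_of_eq ?_) (Finset.single_le_sum (f := fun i =>
      (1 / (y : ℝ)) ^ i * 1 ^ (n + s - i) * ((n + s).choose i : ℝ))
      (fun i _ => by positivity) (Finset.mem_range.2 (by omega : s < n + s + 1)))
    simp only [one_pow, mul_one]
    ring
  have h2 : (1 + 1 / (y : ℝ)) ^ (n + s) ≤ (2 : ℝ) ^ (η / 4 * n) := by
    calc (1 + 1 / (y : ℝ)) ^ (n + s) ≤ (1 + 1 / (y : ℝ)) ^ (2 * n) := by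
          apply pow_le_pow_right₀ _ (by omega)
          have : (0 : ℝ) ≤ 1 / (y : ℝ) := by positivity
          linarith
      _ = ((1 + 1 / (y : ℝ)) ^ 2) ^ n := by rw [pow_mul]
      _ ≤ ((2 : ℝ) ^ (η / 4)) ^ n := pow_le_pow_left₀ (by positivity) hy.le n
      _ = _ := by rw [Real.rpow_mul (by norm_num), Real.rpow_natCast]
  have h3 : (y : ℝ) ^ s ≤ (2 : ℝ) ^ (η / 4 * n) := by
    have e1 : (y : ℝ) ^ s = (2 : ℝ) ^ ((s : ℝ) * Real.logb 2 y) := by
      rw [mul_comm, Real.rpow_mul (by norm_num), Real.rpow_logb (by norm_num) (by norm_num)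
        (by linarith), Real.rpow_natCast]
    rw [e1]
    exact Real.rpow_le_rpow_of_exponent_le (by norm_num) hs2
  calc ((n + s).choose s : ℝ) = ((n + s).choose s : ℝ) * (1 / (y : ℝ)) ^ s * (y : ℝ) ^ s := by
        rw [mul_assoc, ← mul_pow, one_div, inv_mul_cancel₀ (by positivity), one_pow, mul_one]
    _ ≤ (2 : ℝ) ^ (η / 4 * n) * (2 : ℝ) ^ (η / 4 * n) :=
        mul_le_mul (h1.trans h2) h3 (by positivity) (by positivity)
    _ = (2 : ℝ) ^ (η / 2 * n) := by
        rw [← Real.rpow_add (by norm_num)]; congr 1; ring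
    _ < (2 : ℝ) ^ (η * n) := by
        apply Real.rpow_lt_rpow_of_exponent_lt (by norm_num)
        nlinarith

/-- Dense packings have exponentially large clusters and many short distances. -/
theorem threshold' {β c : ℝ} (hβ : 0 < β) (h : (2 : ℝ) ^ c < √2 * β) :
    ∃ η : ℝ, 0 < η ∧ ∀ᶠ n : ℕ in atTop, ∀ (X : Set (EuclideanSpace ℝ (Fin n))) (r : ℝ),
      IsPacking X r → (2 : ℝ) ^ (-(c + η) * n) ≤ upperDensity X r →
      (∃ Q : Finset (EuclideanSpace ℝ (Fin n)), (Q : Set (EuclideanSpace ℝ (Fin n))) ⊆ X ∧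
        (∀ x ∈ Q, ∀ y ∈ Q, x ≠ y → dist x y < 2 * β * r) ∧ (2 : ℝ) ^ (η * n) ≤ Q.card) ∧
      (∀ s : ℕ, (shortDist X (2 * β * r)).encard ≤ s → η * n < s) := by
  obtain ⟨η, hη, h1⟩ := threshold hβ h
  obtain ⟨σ, hσ, h2⟩ := choose_small hη
  refine ⟨min η σ, lt_min hη hσ, ?_⟩
  filter_upwards [h1, eventually_ge_atTop 1] with n hn hn1 X r hX hd
  have hn0 : (0 : ℝ) ≤ n := Nat.cast_nonneg n
  obtain ⟨Q, hQX, hQd, hQ⟩ := hn X r hX (by
    refine le_trans ?_ hd
    apply Real.rpow_le_rpow_of_exponent_le (by norm_num)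
    apply mul_le_mul_of_nonneg_right _ hn0
    linarith [min_le_left η σ])
  refine ⟨⟨Q, hQX, hQd, le_trans ?_ hQ⟩, ?_⟩
  · apply Real.rpow_le_rpow_of_exponent_le (by norm_num)
    exact mul_le_mul_of_nonneg_right (min_le_left _ _) hn0
  · intro s hs
    by_contra hcon
    push Not at hcon
    have h3 : (s : ℝ) ≤ σ * n :=
      hcon.trans (mul_le_mul_of_nonneg_right (min_le_right _ _) hn0)
    have h4 := cluster_of_dist hs Q hQX hQd
    have h5 : (Q.card : ℝ) ≤ ((n + s).choose s : ℝ) := by exact_mod_cast h4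
    linarith [h2 n hn1 s h3]

/-- Near-optimal packings. -/
theorem near_optimal {β : ℝ} (hβ : 0 < β) (h : (2 : ℝ) ^ (limsup rate atTop) < √2 * β) :
    ∃ η : ℝ, 0 < η ∧ ∀ᶠ n : ℕ in atTop, ∀ (X : Set (EuclideanSpace ℝ (Fin n))) (r : ℝ),
      IsPacking X r → (2 : ℝ) ^ (-η * n) * rho n ≤ upperDensity X r →
      (∃ Q : Finset (EuclideanSpace ℝ (Fin n)), (Q : Set (EuclideanSpace ℝ (Fin n))) ⊆ X ∧
        (∀ x ∈ Q, ∀ y ∈ Q, x ≠ y → dist x y < 2 * β * r) ∧ (2 : ℝ) ^ (η * n) ≤ Q.card) ∧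
      (∀ s : ℕ, (shortDist X (2 * β * r)).encard ≤ s → η * n < s) := by
  have hs2 : 0 < √(2 : ℝ) := Real.sqrt_pos.2 (by norm_num)
  have h1 : limsup rate atTop < Real.logb 2 (√2 * β) := by
    rwa [Real.lt_logb_iff_rpow_lt (by norm_num) (by positivity)]
  obtain ⟨c, hc1, hc2⟩ := exists_between h1
  rw [Real.lt_logb_iff_rpow_lt (by norm_num) (by positivity)] at hc2
  obtain ⟨η, hη, h2⟩ := threshold' hβ hc2
  refine ⟨η, hη, ?_⟩
  filter_upwards [h2, eventually_lt_of_limsup_lt hc1 (rate_bdd atTop), eventually_gt_atTop 0]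
    with n hn hnc hn0 X r hX hd
  apply hn X r hX (le_trans _ hd)
  have hn0' : (0 : ℝ) < n := by exact_mod_cast hn0
  have h3 : (2 : ℝ) ^ (-c * n) ≤ rho n := by
    rw [← Real.le_logb_iff_rpow_le (by norm_num) (rho_pos hn0)]
    have := rate_mul hn0
    nlinarith
  calc (2 : ℝ) ^ (-(c + η) * n) = (2 : ℝ) ^ (-η * n) * (2 : ℝ) ^ (-c * n) := by
        rw [← Real.rpow_add (by norm_num)]; congr 1; ring
    _ ≤ _ := mul_le_mul_of_nonneg_left h3 (by positivity)

/-- Bounded clusters. -/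
theorem bounded_clusters {β : ℝ} (hβ : √2 ≤ β) {ε : ℝ} (hε : 0 < ε) :
    ∃ K : ℕ, ∀ᶠ n : ℕ in atTop, (2 : ℝ) ^ (-(1 / 2 + Real.logb 2 β + ε) * n) ≤
      clusterDensity n β K := by
  have hs2 : 0 < √(2 : ℝ) := Real.sqrt_pos.2 (by norm_num)
  have hβ0 : 0 < β := lt_of_lt_of_le hs2 hβ
  obtain ⟨K, n₀, h⟩ := exists_cluster_packing' hβ (Real.one_lt_rpow (by norm_num : (1 : ℝ) < 2) hε)
  refine ⟨K, ?_⟩
  filter_upwards [eventually_ge_atTop n₀] with n hn
  obtain ⟨X, hX, hXc, hXd⟩ := h n hn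
  have h1 := le_clusterDensity (β := β) (K := K) hX (by rwa [mul_one])
  refine le_trans (le_of_eq ?_) (hXd.trans h1)
  rw [Real.rpow_mul (by norm_num), Real.rpow_natCast]
  congr 1
  have e : (2 : ℝ) ^ (1 / 2 + Real.logb 2 β + ε) = (2 : ℝ) ^ ε * (√2 * β) := by
    rw [add_comm, Real.rpow_add (by norm_num), Real.rpow_add (by norm_num),
      Real.rpow_logb (by norm_num) (by norm_num) hβ0, ← Real.sqrt_eq_rpow]
  rw [Real.rpow_neg (by norm_num), e, one_div]

/-- The exponent of the packings with clusters of subexponential size. -/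
theorem cluster_exponent {β : ℝ} (hβ : √2 ≤ β) {K : ℕ → ℕ} (hK : Tendsto K atTop atTop)
    (hK' : Tendsto (fun n : ℕ => Real.logb 2 (K n) / n) atTop (𝓝 0)) :
    Tendsto (fun n : ℕ => -(Real.logb 2 (clusterDensity n β (K n))) / n) atTop
      (𝓝 (1 / 2 + Real.logb 2 β)) := by
  have hs2 : 0 < √(2 : ℝ) := Real.sqrt_pos.2 (by norm_num)
  have hβ0 : 0 < β := lt_of_lt_of_le hs2 hβ
  have htarget : Real.logb 2 (√2 * β) = 1 / 2 + Real.logb 2 β := by
    rw [Real.logb_mul hs2.ne' hβ0.ne', Real.sqrt_eq_rpow, Real.logb_rpow (by norm_num) (by norm_num)]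
  -- lower bounds for the density
  have hlow : ∀ ε : ℝ, 0 < ε → ∀ᶠ n : ℕ in atTop,
      (2 : ℝ) ^ (-(1 / 2 + Real.logb 2 β + ε) * n) ≤ clusterDensity n β (K n) := by
    intro ε hε
    obtain ⟨K₀, h⟩ := bounded_clusters hβ hε
    filter_upwards [h, hK.eventually (eventually_ge_atTop K₀)] with n h1 h2
    refine h1.trans ?_
    apply csSup_le_csSup (clusterDensity_bdd n β (K n))
    · refine ⟨_, ∅, 1, isPacking_empty, ?_, rfl⟩
      intro Q hQ _
      have : Q = ∅ := by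
        rw [← Finset.coe_eq_empty]
        exact subset_empty_iff.1 hQ
      rw [this]; simp
    · rintro δ ⟨X, r, hX, hc, rfl⟩
      exact ⟨X, r, hX, fun Q hQ hQd => (hc Q hQ hQd).trans h2, rfl⟩
  rw [Metric.tendsto_atTop']
  suffices hmain : ∀ ε : ℝ, 0 < ε → ∀ᶠ n : ℕ in atTop,
      -(Real.logb 2 (clusterDensity n β (K n))) / n ≤ 1 / 2 + Real.logb 2 β + ε ∧
      1 / 2 + Real.logb 2 β - ε ≤ -(Real.logb 2 (clusterDensity n β (K n))) / n by
    intro ε hε
    obtain ⟨N, hN⟩ := eventually_atTop.1 (hmain (ε / 2) (by positivity))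
    refine ⟨N, fun n hn => ?_⟩
    obtain ⟨h1, h2⟩ := hN n hn.le
    rw [Real.dist_eq, abs_lt]
    constructor <;> linarith
  intro ε hε
  -- the number `m`
  obtain ⟨m, hmq, hm⟩ := (((tendsto_q hβ0).eventually (gt_mem_nhds
    (show 1 / (√2 * β) < (2 : ℝ) ^ (ε / 2) * (1 / (√2 * β)) by
      apply lt_mul_of_one_lt_left (by positivity)
      exact Real.one_lt_rpow (by norm_num) (by positivity)))).and (eventually_ge_atTop 1)).exists
  have hm0 : (0 : ℝ) < m := by exact_mod_cast hm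
  have hlim : Tendsto (fun n : ℕ => m * (Real.logb 2 (1 + m) / n + Real.logb 2 (K n) / n)) atTop
      (𝓝 (m * (0 + 0))) := by
    apply Tendsto.const_mul
    exact (tendsto_const_div_atTop_nhds_zero_nat _).add hK'
  rw [add_zero, mul_zero] at hlim
  filter_upwards [hlow ε hε, eventually_gt_atTop 0, hK.eventually (eventually_ge_atTop 1),
    hlim.eventually (gt_mem_nhds (show 0 < ε / 2 by positivity))] with n h1 hn0 hK1 h2
  have hn0' : (0 : ℝ) < n := by exact_mod_cast hn0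
  have hpos : 0 < clusterDensity n β (K n) := lt_of_lt_of_le (by positivity) h1
  constructor
  · rw [← Real.le_logb_iff_rpow_le (by norm_num) hpos] at h1
    rw [div_le_iff₀ hn0']
    linarith
  · have hK1' : (1 : ℝ) ≤ K n := by exact_mod_cast hK1
    have h3 := clusterDensity_le (n := n) hβ0 (K := K n) hm
    have h4 : clusterDensity n β (K n) ≤ ((1 + m) * (K n : ℝ)) ^ m *
        ((2 : ℝ) ^ (ε / 2) * (1 / (√2 * β))) ^ n := by
      refine h3.trans (mul_le_mul (choose_le_mul_pow le_rfl hK1') ?_ (by positivity)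
        (by positivity))
      exact pow_le_pow_left₀ (Real.sqrt_nonneg _) hmq.le n
    have h5 : Real.logb 2 (clusterDensity n β (K n)) ≤
        m * (Real.logb 2 (1 + m) + Real.logb 2 (K n)) +
          n * (ε / 2 - (1 / 2 + Real.logb 2 β)) := by
      refine (Real.logb_le_logb_of_le (by norm_num) hpos h4).trans (le_of_eq ?_)
      rw [Real.logb_mul (by positivity) (by positivity), Real.logb_pow, Real.logb_pow,
        Real.logb_mul (by positivity) (by positivity), Real.logb_mul (by positivity) (by positivity),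
        Real.logb_rpow (by norm_num) (by norm_num), one_div, Real.logb_inv, htarget]
      ring
    rw [le_div_iff₀ hn0']
    have h6 : m * (Real.logb 2 (1 + m) + Real.logb 2 (K n)) < ε / 2 * n := by
      have h7 := mul_lt_mul_of_pos_right h2 hn0'
      refine lt_of_eq_of_lt ?_ h7
      field_simp
    nlinarith

end Pool.Agent.N621.SP
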