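import Pool.Agent.N621.SP.Exist

/-! Dense packings with few short distances (for MP_dbfdb2_gt). -/

open MeasureTheory Metric Filter Set
open scoped Topology ENNReal InnerProductSpace
open Pool.Agent.H818R2

namespace Pool.Agent.N621.SP

/-- the lattice `c ℤ^n` -/
def lat (n : ℕ) (c : ℝ) : Set (EuclideanSpace ℝ (Fin n)) :=
  {x | ∀ i, ∃ k : ℤ, x i = c * k}

lemma lat_dist {n : ℕ} {c : ℝ} (hc : 0 < c) {x y : EuclideanSpace ℝ (Fin n)}
    (hx : x ∈ lat n c) (hy : y ∈ lat n c) : ∃ k : ℕ, dist x y = c * √k := by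
  choose u hu using hx
  choose v hv using hy
  refine ⟨(∑ i, (u i - v i) ^ 2).toNat, ?_⟩
  rw [EuclideanSpace.dist_eq]
  have h1 : ((∑ i, (u i - v i) ^ 2).toNat : ℝ) = ∑ i, ((u i : ℝ) - v i) ^ 2 := by
    have h2 : ((∑ i, (u i - v i) ^ 2).toNat : ℤ) = ∑ i, (u i - v i) ^ 2 :=
      Int.toNat_of_nonneg (Finset.sum_nonneg fun i _ => sq_nonneg _)
    have h3 : (((∑ i, (u i - v i) ^ 2).toNat : ℤ) : ℝ) = ((∑ i, (u i - v i) ^ 2 : ℤ) : ℝ) := by
      rw [h2]
    push_cast at h3
    exact h3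
  rw [h1]
  have h2 : ∑ i, dist (x i) (y i) ^ 2 = c ^ 2 * ∑ i, ((u i : ℝ) - v i) ^ 2 := by
    rw [Finset.mul_sum]
    apply Finset.sum_congr rfl
    intro i _
    rw [hu, hv, Real.dist_eq, sq_abs]
    ring
  rw [h2, Real.sqrt_mul (by positivity), Real.sqrt_sq hc.le]

lemma lat_near {n : ℕ} {c : ℝ} (hc : 0 < c) (z : EuclideanSpace ℝ (Fin n)) :
    ∃ p ∈ lat n c, dist z p ≤ c * √n / 2 := by
  refine ⟨WithLp.toLp 2 (fun i => c * (round (z i / c) : ℤ)), fun i => ⟨round (z i / c), rfl⟩, ?_⟩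
  rw [EuclideanSpace.dist_eq]
  have h1 : ∀ i, dist (z i) (c * (round (z i / c) : ℤ)) ^ 2 ≤ (c / 2) ^ 2 := by
    intro i
    have h2 := abs_sub_round (z i / c)
    rw [Real.dist_eq]
    have h3 : z i - c * (round (z i / c) : ℤ) = c * (z i / c - (round (z i / c) : ℤ)) := by
      field_simp
    rw [h3, abs_mul, abs_of_pos hc]
    apply pow_le_pow_left₀ (by positivity)
    nlinarith [abs_nonneg (z i / c - (round (z i / c) : ℤ))]
  have h2 : ∑ i, dist (z i) (c * (round (z i / c) : ℤ)) ^ 2 ≤ n * (c / 2) ^ 2 := by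
    calc _ ≤ ∑ _i : Fin n, (c / 2) ^ 2 := Finset.sum_le_sum fun i _ => h1 i
      _ = _ := by simp
  calc √(∑ i, dist (z i) ((WithLp.toLp 2 (fun i => c * ((round (z i / c) : ℤ) : ℝ)) :
        EuclideanSpace ℝ (Fin n)) i) ^ 2) ≤ √(n * (c / 2) ^ 2) := Real.sqrt_le_sqrt h2
    _ = √n * (c / 2) := by rw [Real.sqrt_mul (by positivity), Real.sqrt_sq (by positivity)]
    _ = _ := by ring

/-- maximal separated sets of lattice points in balls -/
lemma lat_piece {n : ℕ} {c δ : ℝ} (hc : 0 < c) (hδ : 0 < δ) (hδc : c * √n / 2 < δ) {R : ℝ}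
    (hR : 2 + 2 * δ ≤ R) :
    ∃ P : Finset (EuclideanSpace ℝ (Fin n)), Sep 2 P ∧ (P : Set (EuclideanSpace ℝ (Fin n))) ⊆ lat n c ∧
      (∀ x ∈ P, ‖x‖ ≤ R) ∧ (1 / (2 * (1 + δ))) ^ n * R ^ n ≤ P.card := by
  classical
  have hR0 : 0 ≤ R := by linarith
  obtain ⟨P, hP, hPG, hmax⟩ := exists_max (E := EuclideanSpace ℝ (Fin n))
    (G := lat n c ∩ closedBall 0 R) hR0 inter_subset_right
  refine ⟨P, hP, hPG.trans inter_subset_left, fun x hx => mem_closedBall_zero_iff.1 (hPG hx).2, ?_⟩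
  have h1 : closedBall (0 : EuclideanSpace ℝ (Fin n)) (R - δ) ⊆ ⋃ x ∈ P, ball x (2 + δ) := by
    intro z hz
    obtain ⟨p, hp, hzp⟩ := lat_near hc z
    have hpR : p ∈ closedBall (0 : EuclideanSpace ℝ (Fin n)) R := by
      rw [mem_closedBall_zero_iff] at hz ⊢
      rw [dist_comm, dist_eq_norm] at hzp
      calc ‖p‖ = ‖z + (p - z)‖ := by congr 1; abel
        _ ≤ ‖z‖ + ‖p - z‖ := norm_add_le _ _
        _ ≤ R := by linarith
    by_contra hcon
    simp only [mem_iUnion, mem_ball, not_exists, not_lt, exists_prop, not_and] at hcon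
    have hpx : ∀ x ∈ P, 2 ≤ dist p x := by
      intro x hx
      have h2 := hcon x hx
      have h3 := dist_triangle z p x
      linarith
    have hpP : p ∉ P := fun h => by
      have := hpx p h
      rw [dist_self] at this; norm_num at this
    have h2 := hmax (insert p P) ?_ ?_
    · rw [Finset.card_insert_of_notMem hpP] at h2
      omega
    · intro x hx y hy hxy
      rw [Finset.mem_insert] at hx hy
      rcases hx with rfl | hx <;> rcases hy with rfl | hy
      · exact absurd rfl hxy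
      · exact hpx y hy
      · rw [dist_comm]; exact hpx x hx
      · exact hP x hx y hy hxy
    · rw [Finset.coe_insert]
      exact insert_subset ⟨hp, hpR⟩ hPG
  have h2 : volume.real (closedBall (0 : EuclideanSpace ℝ (Fin n)) (R - δ)) ≤
      ∑ x ∈ P, volume.real (ball x (2 + δ : ℝ)) := by
    refine (measureReal_mono h1 ?_).trans (measureReal_biUnion_finset_le _ _)
    refine ((measure_biUnion_lt_top (Finset.finite_toSet _) ?_)).ne
    intro i _; exact measure_ball_lt_top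
  rw [vol_closedBall _ (by linarith), Finset.sum_congr rfl (fun x _ => vol_ball x (by linarith)),
    Finset.sum_const, nsmul_eq_mul, ← mul_assoc, finrank_euclideanSpace_fin] at h2
  have h3 := le_of_mul_le_mul_right h2 vb_pos
  have h4 : R / (2 * (1 + δ)) ≤ (R - δ) / (2 + δ) := by
    rw [div_le_div_iff₀ (by positivity) (by positivity)]
    nlinarith
  calc (1 / (2 * (1 + δ))) ^ n * R ^ n = (R / (2 * (1 + δ))) ^ n := by
        rw [← mul_pow]; congr 1; ring
    _ ≤ ((R - δ) / (2 + δ)) ^ n := pow_le_pow_left₀ (by positivity) h4 n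
    _ ≤ P.card := by
        rw [div_pow, div_le_iff₀ (by positivity)]
        exact h3

/-- Few short distances. -/
theorem exists_few {β : ℝ} (hβ : 1 ≤ β) {b : ℝ} (hb : 1 < b) :
    ∃ C : ℕ, ∀ n : ℕ, 1 ≤ n → ∃ X : Set (EuclideanSpace ℝ (Fin n)), IsPacking X 1 ∧
      (shortDist X (2 * β)).encard ≤ ((C * n : ℕ) : ℕ∞) ∧ (1 / (2 * b)) ^ n ≤ upperDensity X 1 := by
  classical
  set δ : ℝ := b - 1 with hδ
  have hδ0 : 0 < δ := by linarith
  obtain ⟨M, hM⟩ := exists_nat_gt (1 / δ ^ 2)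
  have hM0 : (0 : ℝ) < M := lt_trans (by positivity) hM
  set C : ℕ := ⌈β ^ 2 * M⌉₊ with hC
  refine ⟨C, fun n hn => ?_⟩
  have hn0 : (0 : ℝ) < n := by exact_mod_cast hn
  have : NeZero n := ⟨by omega⟩
  set c : ℝ := 2 / √(M * n) with hc
  have hc0 : 0 < c := by positivity
  have hcn : c * √n / 2 < δ := by
    have h1 : c * √n / 2 = 1 / √M := by
      rw [hc, Real.sqrt_mul hM0.le]
      have : 0 < √(n : ℝ) := Real.sqrt_pos.2 hn0
      have : 0 < √(M : ℝ) := Real.sqrt_pos.2 hM0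
      field_simp
    rw [h1, div_lt_iff₀ (by positivity), ← div_lt_iff₀' hδ0, Real.lt_sqrt (by positivity), div_pow,
      one_pow]
    exact hM
  set Δ : Set ℝ := {d | ∃ k : ℕ, d = c * √k} with hΔ
  set 𝒬 : Set (Finset (EuclideanSpace ℝ (Fin n))) := {Q | ∃ x y, x ≠ y ∧ Q = {x, y} ∧
    dist x y < 2 * β ∧ dist x y ∉ Δ} with h𝒬
  obtain ⟨X, hX, hXQ, hXd⟩ := glue (E := EuclideanSpace ℝ (Fin n)) (R0 := 2 + 2 * δ)
    (D := 2 * β) (𝒬 := 𝒬) (a := (1 / (2 * (1 + δ))) ^ n) (by linarith)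
    (by
      rintro Q ⟨x, y, hxy, rfl, hd, -⟩
      refine ⟨by simp, ?_⟩
      intro u hu v hv
      rw [Finset.mem_insert, Finset.mem_singleton] at hu hv
      rcases hu with rfl | rfl <;> rcases hv with rfl | rfl
      · rw [dist_self]; linarith
      · exact hd
      · rw [dist_comm]; exact hd
      · rw [dist_self]; linarith)
    (fun R hR => by
      obtain ⟨P, hP1, hP2, hP3, hP4⟩ := lat_piece hc0 hδ0 hcn hR
      refine ⟨P, hP1, ?_, hP3, by rw [finrank_euclideanSpace_fin]; exact hP4⟩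
      rintro Q ⟨x, y, -, rfl, -, hd⟩ hQP
      apply hd
      exact lat_dist hc0 (hP2 (hQP (Finset.mem_insert_self _ _)))
        (hP2 (hQP (Finset.mem_insert_of_mem (Finset.mem_singleton_self _)))))
  refine ⟨X, hX, ?_, ?_⟩
  · have hsub : shortDist X (2 * β) ⊆ (fun k : ℕ => c * √k) '' (Finset.range (C * n) : Set ℕ) := by
      rintro d ⟨hd0, hdD, x, hx, y, hy, hxy⟩
      have hne : x ≠ y := by
        rintro rfl
        rw [dist_self] at hxy
        exact hd0.ne hxy
      have hdΔ : d ∈ Δ := by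
        by_contra hcon
        apply hXQ {x, y} ⟨x, y, hne, rfl, by rw [hxy]; exact hdD, by rw [hxy]; exact hcon⟩
        intro z hz
        simp only [Finset.coe_insert, Finset.coe_singleton, mem_insert_iff, mem_singleton_iff] at hz
        rcases hz with rfl | rfl
        · exact hx
        · exact hy
      obtain ⟨k, hk⟩ := hdΔ
      refine ⟨k, ?_, hk.symm⟩
      simp only [Finset.coe_range, mem_Iio]
      rw [hk] at hdD
      have h1 : √(k : ℝ) < β * √(M * n) := by
        rw [hc] at hdD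
        have h2 : 0 < √((M : ℝ) * n) := Real.sqrt_pos.2 (by positivity)
        have h3 : 2 / √((M : ℝ) * n) * √k * √((M : ℝ) * n) < 2 * β * √((M : ℝ) * n) :=
          mul_lt_mul_of_pos_right hdD h2
        have h4 : 2 / √((M : ℝ) * n) * √k * √((M : ℝ) * n) = 2 * √k := by field_simp
        rw [h4] at h3
        linarith
      have h2 : (k : ℝ) < β ^ 2 * (M * n) := by
        have h3 : √(k : ℝ) ^ 2 < (β * √(M * n)) ^ 2 := by
          apply pow_lt_pow_left₀ h1 (Real.sqrt_nonneg _) (by norm_num)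
        rwa [Real.sq_sqrt (by positivity), mul_pow, Real.sq_sqrt (by positivity)] at h3
      have h3 : β ^ 2 * (M * n) ≤ C * n := by
        rw [← mul_assoc]
        exact mul_le_mul_of_nonneg_right (Nat.le_ceil _) hn0.le
      have h4 : (k : ℝ) < ((C * n : ℕ) : ℝ) := by push_cast; linarith
      exact_mod_cast h4
    refine (Set.encard_le_encard hsub).trans ((Set.encard_image_le _ _).trans ?_)
    rw [Set.encard_coe_eq_coe_finsetCard, Finset.card_range]
  · have h1 : 1 + δ = b := by rw [hδ]; ring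
    rw [h1] at hXd
    exact hXd

end Pool.Agent.N621.SP
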