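import Pool.Agent.H818R2.Base2
import Pool.Agent.TH220.NT.Comb
import Pool.Agent.Helper949.BBS

/-! Packings with small clusters have small density (for MP_dbfdb2_gt). -/

open MeasureTheory Metric Filter Set
open scoped Topology
open Pool.Agent.H818R2

namespace Pool.Agent.N621.SP

/-- every finite subset of `X` whose mutual distances are less than `D` has at most `K` points -/
def ClusterLE {E : Type*} [PseudoMetricSpace E] (X : Set E) (D : ℝ) (K : ℕ) : Prop :=
  ∀ Q : Finset E, (Q : Set E) ⊆ X → (∀ x ∈ Q, ∀ y ∈ Q, x ≠ y → dist x y < D) → Q.card ≤ K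

section
variable {E : Type*} [NormedAddCommGroup E] [InnerProductSpace ℝ E] [FiniteDimensional ℝ E]
  [MeasurableSpace E] [BorelSpace E]

/-- Averaging over the translates of a region. -/
lemma region_count' {G : Set E} (hGm : MeasurableSet G) {a : ℝ} (ha : 0 ≤ a)
    (hG : G ⊆ closedBall 0 a) {N : ℕ} {F : Finset E}
    (hN : ∀ z : E, ∀ P : Finset E, P ⊆ F → (∀ x ∈ P, x - z ∈ G) → P.card ≤ N)
    {T : ℝ} (hT : 0 ≤ T) (hFT : ∀ x ∈ F, ‖x‖ ≤ T) :
    F.card * volume.real G ≤ N * ((T + a) ^ Module.finrank ℝ E * vb E) := by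
  classical
  have hfin : volume G ≠ ⊤ :=
    ((measure_mono hG).trans_lt measure_closedBall_lt_top).ne
  have key : ∑ x ∈ F, ∫⁻ z, indicator {z | x - z ∈ G} (fun _ => (1 : ENNReal)) z
      ≤ ∫⁻ z, indicator (closedBall (0 : E) (T + a)) (fun _ => (N : ENNReal)) z := by
    rw [← lintegral_finsetSum]
    · apply lintegral_mono
      intro z
      have e1 : ∑ x ∈ F, indicator {z | x - z ∈ G} (fun _ => (1 : ENNReal)) z
          = ((F.filter (fun x => x - z ∈ G)).card : ENNReal) := by
        rw [Finset.card_filter, Nat.cast_sum]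
        apply Finset.sum_congr rfl
        intro x _
        by_cases h : x - z ∈ G <;> simp [indicator, h]
      simp only [e1]
      by_cases hz : z ∈ closedBall (0 : E) (T + a)
      · rw [indicator_of_mem hz]
        have : (F.filter (fun x => x - z ∈ G)).card ≤ N :=
          hN z _ (Finset.filter_subset _ _) (fun x hx => (Finset.mem_filter.1 hx).2)
        exact_mod_cast this
      · have : F.filter (fun x => x - z ∈ G) = ∅ := by
          apply Finset.filter_eq_empty_iff.2
          intro x hx hxz
          apply hz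
          have h3 := hG hxz
          rw [mem_closedBall_zero_iff] at h3 ⊢
          have h4 := hFT x hx
          calc ‖z‖ = ‖x - (x - z)‖ := by congr 1; abel
            _ ≤ ‖x‖ + ‖x - z‖ := norm_sub_le _ _
            _ ≤ T + a := by linarith
        rw [this]; simp
    · intro x _
      apply Measurable.indicator measurable_const
      exact (measurable_const.sub measurable_id) hGm
  have e2 : ∀ x ∈ F, ∫⁻ z, indicator {z | x - z ∈ G} (fun _ => (1 : ENNReal)) z = volume G := by
    intro x _
    have hm : MeasurableSet {z : E | x - z ∈ G} := (measurable_const.sub measurable_id) hGm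
    rw [lintegral_indicator_const hm, one_mul]
    exact (Measure.measurePreserving_sub_left volume x).measure_preimage hGm.nullMeasurableSet
  rw [Finset.sum_congr rfl e2, Finset.sum_const, lintegral_indicator_const measurableSet_closedBall,
    nsmul_eq_mul] at key
  have h5 := ENNReal.toReal_mono (by
    exact ENNReal.mul_ne_top (ENNReal.natCast_ne_top N) measure_closedBall_lt_top.ne) key
  rw [ENNReal.toReal_mul, ENNReal.toReal_mul, ENNReal.toReal_natCast, ENNReal.toReal_natCast,
    ← measureReal_def, ← measureReal_def, vol_closedBall _ (by linarith)] at h5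
  exact h5

lemma upperDensity_le' {X : Set E} (hX : IsPacking X 1) {G : Set E} (hGm : MeasurableSet G)
    {a : ℝ} (ha : 0 ≤ a) (hG : G ⊆ closedBall 0 a) (hG0 : 0 < volume.real G) {N : ℕ}
    (hN : ∀ z : E, ∀ P : Finset E, (P : Set E) ⊆ X → (∀ x ∈ P, x - z ∈ G) → P.card ≤ N) :
    upperDensity X 1 ≤ N * vb E / volume.real G := by
  set n := Module.finrank ℝ E with hn
  have h1 : ∀ᶠ R : ℝ in atTop,
      volume.real (ball (0 : E) R ∩ body X 1) / volume.real (ball (0 : E) R)
      ≤ N * vb E / volume.real G * ((R + 1 + a) / R) ^ n := by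
    filter_upwards [eventually_gt_atTop 0] with R hR
    have h2 := body_le hX R
    have h3 := region_count' hGm ha hG (N := N) (F := (finite_inter hX (R + 1)).toFinset)
      (fun z P hP hPz => hN z P (fun x hx => by
        have := hP hx
        simp only [Finite.mem_toFinset] at this
        exact this.1) hPz) (T := R + 1) (by linarith)
      (fun x hx => by
        simp only [Finite.mem_toFinset, mem_inter_iff, mem_closedBall_zero_iff] at hx
        exact hx.2)
    rw [vol_ball 0 hR]
    have h4 : ((finite_inter hX (R + 1)).toFinset.card : ℝ)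
        ≤ N * ((R + 1 + a) ^ n * vb E) / volume.real G := by
      rw [le_div_iff₀ hG0]; exact h3
    calc volume.real (ball (0 : E) R ∩ body X 1) / (R ^ n * vb E)
        ≤ (N * ((R + 1 + a) ^ n * vb E) / volume.real G * vb E) / (R ^ n * vb E) := by
          apply div_le_div_of_nonneg_right _ (by have := vb_pos (E := E); positivity)
          exact h2.trans (mul_le_mul_of_nonneg_right h4 vb_pos.le)
      _ = N * vb E / volume.real G * ((R + 1 + a) / R) ^ n := by
          have := (vb_pos (E := E)).ne'
          rw [div_pow]; field_simp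
  have h5 : Tendsto (fun R : ℝ => N * vb E / volume.real G * ((R + 1 + a) / R) ^ n) atTop
      (𝓝 (N * vb E / volume.real G * 1 ^ n)) := by
    apply Tendsto.const_mul
    apply Tendsto.pow
    have : Tendsto (fun R : ℝ => 1 + (1 + a) / R) atTop (𝓝 (1 + 0)) :=
      tendsto_const_nhds.add (tendsto_const_nhds.div_atTop tendsto_id)
    rw [add_zero] at this
    refine this.congr' ?_
    filter_upwards [eventually_gt_atTop 0] with R hR
    field_simp
    ring
  rw [one_pow, mul_one] at h5
  calc upperDensity X 1 ≤ limsup (fun R : ℝ => N * vb E / volume.real G * ((R + 1 + a) / R) ^ n)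
        atTop := limsup_le_limsup h1 (ratio_cobdd X 1) h5.isBoundedUnder_le
    _ = _ := h5.limsup_eq

omit [FiniteDimensional ℝ E] [MeasurableSpace E] [BorelSpace E] in
/-- A ball of radius `< √2 β √(m/(m+1))` contains at most `m` points with mutual distances at least
`2 β`, hence few points of a set with small clusters. -/
lemma ball_count {X : Set E} {β : ℝ} (hβ : 0 < β) {K m : ℕ} (hK : ClusterLE X (2 * β) K)
    (hm : 1 ≤ m) {z : E} {P : Finset E} (hPX : (P : Set E) ⊆ X)
    (hPz : ∀ x ∈ P, ‖x - z‖ < √(2 * β ^ 2 * m / (m + 1))) :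
    P.card ≤ (K + m).choose m := by
  classical
  have hm0 : (0 : ℝ) < m := by exact_mod_cast hm
  have h := Pool.Agent.TH220.NT.ramsey (fun x y : E => dist x y < 2 * β)
    (fun x y h => by rw [dist_comm]; exact h) (K + m) K m le_rfl P
    (fun Q hQ hQ' => hK Q ((Finset.coe_subset.2 hQ).trans hPX) hQ')
    (fun Q hQ hQ' => by
      by_contra hcon
      push Not at hcon
      have hne : Q.Nonempty := Finset.card_pos.1 (by omega)
      obtain ⟨q, hq, hqmax⟩ := Q.exists_max_image (fun y => ‖y - z‖) hne
      have hq2 : ‖q - z‖ ^ 2 < 2 * β ^ 2 * m / (m + 1) := by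
        have h1 := hPz q (hQ hq)
        rwa [Real.lt_sqrt (norm_nonneg _)] at h1
      have h2 := Pool.Agent.TH220.NT.small_ball (Q := Q) (c := z) (p := ‖q - z‖ ^ 2)
        (m := 4 * β ^ 2) (fun y hy => pow_le_pow_left₀ (norm_nonneg _) (hqmax y hy) 2)
        (fun y hy y' hy' hne => by
          have h3 := hQ' y hy y' hy' hne
          rw [not_lt, dist_eq_norm] at h3
          nlinarith [norm_nonneg (y - y')]) (by positivity)
      have h4 : ((m : ℝ) + 1) ≤ Q.card := by exact_mod_cast hcon
      rw [lt_div_iff₀ (by positivity)] at hq2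
      have h5 : 0 < 4 * β ^ 2 - 2 * ‖q - z‖ ^ 2 := by
        have : ‖q - z‖ ^ 2 * (m + 1) < 2 * β ^ 2 * (m + 1) := by nlinarith [sq_nonneg β]
        have := lt_of_mul_lt_mul_right this (by positivity)
        linarith
      have h6 : ((m : ℝ) + 1) * (4 * β ^ 2 - 2 * ‖q - z‖ ^ 2) ≤
          Q.card * (4 * β ^ 2 - 2 * ‖q - z‖ ^ 2) := mul_le_mul_of_nonneg_right h4 h5.le
      nlinarith)
  rw [Nat.choose_symm_add] at h
  omega

/-- packings by unit balls with small clusters -/
theorem cluster_bound_one {X : Set E} (hX : IsPacking X 1) {β : ℝ} (hβ : 0 < β) {K m : ℕ}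
    (hK : ClusterLE X (2 * β) K) (hm : 1 ≤ m) :
    upperDensity X 1 ≤ (K + m).choose m * √((m + 1) / (2 * m * β ^ 2)) ^ Module.finrank ℝ E := by
  have hm0 : (0 : ℝ) < m := by exact_mod_cast hm
  set b : ℝ := √(2 * β ^ 2 * m / (m + 1)) with hb
  have hb0 : 0 < b := Real.sqrt_pos.2 (by positivity)
  have h := upperDensity_le' hX (G := ball 0 b) measurableSet_ball hb0.le ball_subset_closedBall
    (by rw [vol_ball 0 hb0]; have := vb_pos (E := E); positivity) (N := (K + m).choose m)
    (fun z P hP hPz => ball_count hβ hK hm hP (fun x hx => mem_ball_zero_iff.1 (hPz x hx)))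
  refine h.trans (le_of_eq ?_)
  rw [vol_ball 0 hb0]
  have hv := (vb_pos (E := E)).ne'
  have e : √((m + 1) / (2 * m * β ^ 2)) = b⁻¹ := by
    rw [hb, ← Real.sqrt_inv]
    congr 1
    field_simp
  rw [e, inv_pow]
  field_simp

omit [FiniteDimensional ℝ E] [MeasurableSpace E] [BorelSpace E] in
open scoped Pointwise in
lemma clusterLE_smul {X : Set E} {D : ℝ} {K : ℕ} (h : ClusterLE X D K) {c : ℝ} (hc : 0 < c) :
    ClusterLE (c • X) (c * D) K := by
  classical
  intro Q hQ hQd
  have h1 := h (Q.image (fun x => c⁻¹ • x)) (by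
    intro y hy
    simp only [Finset.coe_image, mem_image] at hy
    obtain ⟨x, hx, rfl⟩ := hy
    obtain ⟨w, hw, hwx⟩ := mem_smul_set.1 (hQ hx)
    rw [← hwx, smul_smul, inv_mul_cancel₀ hc.ne', one_smul]
    exact hw) (by
    intro u hu v hv huv
    obtain ⟨x, hx, rfl⟩ := Finset.mem_image.1 hu
    obtain ⟨y, hy, rfl⟩ := Finset.mem_image.1 hv
    have hxy : x ≠ y := fun h => huv (by rw [h])
    rw [dist_smul₀, Real.norm_of_nonneg (by positivity), inv_mul_lt_iff₀ hc]
    exact hQd x hx y hy hxy)
  rwa [Finset.card_image_of_injective _ (smul_right_injective _ (inv_pos.2 hc).ne')] at h1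

/-- packings with small clusters -/
theorem cluster_bound {X : Set E} {r : ℝ} (hX : IsPacking X r) {β : ℝ} (hβ : 0 < β) {K m : ℕ}
    (hK : ClusterLE X (2 * β * r) K) (hm : 1 ≤ m) :
    upperDensity X r ≤ (K + m).choose m * √((m + 1) / (2 * m * β ^ 2)) ^ Module.finrank ℝ E := by
  have hr := hX.1
  have h1 := isPacking_smul hX (inv_pos.2 hr)
  rw [inv_mul_cancel₀ hr.ne'] at h1
  have e1 := upperDensity_smul (X := X) (r := r) (inv_pos.2 hr)
  rw [inv_mul_cancel₀ hr.ne'] at e1
  rw [← e1]
  apply cluster_bound_one h1 hβ _ hm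
  have h2 := clusterLE_smul hK (inv_pos.2 hr)
  have e2 : r⁻¹ * (2 * β * r) = 2 * β := by field_simp
  rwa [e2] at h2

end

/-- the set of distances less than `D` of the points of `X` -/
def shortDist {E : Type*} [PseudoMetricSpace E] (X : Set E) (D : ℝ) : Set ℝ :=
  {d | 0 < d ∧ d < D ∧ ∃ x ∈ X, ∃ y ∈ X, dist x y = d}

theorem cluster_of_dist {n : ℕ} {X : Set (EuclideanSpace ℝ (Fin n))} {D : ℝ} {s : ℕ}
    (h : (shortDist X D).encard ≤ s) : ClusterLE X D ((n + s).choose s) := by
  classical
  intro Q hQ hQd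
  set k := Q.card with hk
  let e : Q ≃ Fin k := Q.equivFin
  apply Pool.Agent.Helper949.DD.bbs (fun i => ((e.symm i : Q) : EuclideanSpace ℝ (Fin n)))
    (fun i j hij => e.symm.injective (Subtype.ext hij))
  have hfin : (shortDist X D).Finite := by
    apply Set.finite_of_encard_le_coe h
  have hsub : {r : ℝ | ∃ i j : Fin k, i < j ∧ r = dist ((e.symm i : Q) : EuclideanSpace ℝ (Fin n))
      ((e.symm j : Q) : EuclideanSpace ℝ (Fin n))} ⊆ shortDist X D := by
    rintro r ⟨i, j, hij, rfl⟩
    have hne : ((e.symm i : Q) : EuclideanSpace ℝ (Fin n)) ≠ (e.symm j : Q) := by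
      intro h
      exact hij.ne (e.symm.injective (Subtype.ext h))
    exact ⟨dist_pos.2 hne, hQd _ (e.symm i).2 _ (e.symm j).2 hne, _, hQ (e.symm i).2, _,
      hQ (e.symm j).2, rfl⟩
  have h1 := Set.ncard_le_ncard hsub hfin
  refine h1.trans ?_
  have h2 : ((shortDist X D).ncard : ℕ∞) ≤ s := by
    rw [hfin.cast_ncard_eq]; exact h
  exact_mod_cast h2

end Pool.Agent.N621.SP
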