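import Pool.Agent.N621.SP.Pot
import Pool.Agent.N621.SP.Upper

/-! Dense packings with bounded clusters (for MP_dbfdb2_gt). -/

open MeasureTheory Metric Filter Set
open scoped Topology ENNReal InnerProductSpace
open Pool.Agent.H818R2

namespace Pool.Agent.N621.SP

section
variable {E : Type*} [NormedAddCommGroup E] [InnerProductSpace ℝ E]

/-- the centroid identity -/
lemma centroid_sum (Q : Finset E) (hQ : Q.Nonempty) :
    ∑ x ∈ Q, ∑ y ∈ Q, ‖x - y‖ ^ 2 =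
      2 * Q.card * ∑ x ∈ Q, ‖x - (Q.card : ℝ)⁻¹ • ∑ y ∈ Q, y‖ ^ 2 := by
  set c : E := (Q.card : ℝ)⁻¹ • ∑ y ∈ Q, y with hc
  have hN : (0 : ℝ) < Q.card := by exact_mod_cast Finset.card_pos.2 hQ
  have hz : ∑ y ∈ Q, (y - c) = 0 := by
    rw [Finset.sum_sub_distrib, Finset.sum_const, hc, ← Nat.cast_smul_eq_nsmul ℝ, smul_smul,
      mul_inv_cancel₀ hN.ne', one_smul, sub_self]
  have h1 : ∀ x ∈ Q, ∑ y ∈ Q, ‖x - y‖ ^ 2 = Q.card * ‖x - c‖ ^ 2 + ∑ y ∈ Q, ‖y - c‖ ^ 2 := by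
    intro x _
    have h2 : ∀ y ∈ Q, ‖x - y‖ ^ 2 = ‖x - c‖ ^ 2 - 2 * ⟪x - c, y - c⟫_ℝ + ‖y - c‖ ^ 2 := by
      intro y _
      rw [← @norm_sub_sq_real]
      congr 2
      abel
    rw [Finset.sum_congr rfl h2, Finset.sum_add_distrib, Finset.sum_sub_distrib, Finset.sum_const,
      nsmul_eq_mul, ← Finset.mul_sum, ← inner_sum, hz, inner_zero_right]
    ring
  rw [Finset.sum_congr rfl h1, Finset.sum_add_distrib, Finset.sum_const, nsmul_eq_mul,
    ← Finset.mul_sum]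
  ring

open Classical in
/-- A finite set of small diameter has a good part in a ball which is slightly larger than the
limit of the Jung radii. -/
lemma near_part {Q : Finset E} {β : ℝ} (hβ : 0 < β)
    (hQ : ∀ x ∈ Q, ∀ y ∈ Q, x ≠ y → dist x y < 2 * β) {j : ℕ} (hj : 1 ≤ j) :
    ∃ c : E, Q.card ≤ (j + 1) * (Q.filter (fun x => dist x c < √(2 * β ^ 2 * (1 + 1 / j)))).card := by
  have hj0 : (0 : ℝ) < j := by exact_mod_cast hj
  rcases Q.eq_empty_or_nonempty with rfl | hne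
  · exact ⟨0, by simp⟩
  have hN : (0 : ℝ) < Q.card := by exact_mod_cast Finset.card_pos.2 hne
  set c : E := (Q.card : ℝ)⁻¹ • ∑ y ∈ Q, y with hc
  refine ⟨c, ?_⟩
  set T : ℝ := 2 * β ^ 2 * (1 + 1 / j) with hT
  have hT0 : 0 < T := by positivity
  have h1 := centroid_sum Q hne
  rw [← hc] at h1
  have h2 : ∑ x ∈ Q, ∑ y ∈ Q, ‖x - y‖ ^ 2 ≤ Q.card * (Q.card * (4 * β ^ 2)) := by
    rw [← nsmul_eq_mul, ← Finset.sum_const]
    apply Finset.sum_le_sum
    intro x hx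
    rw [← nsmul_eq_mul, ← Finset.sum_const]
    apply Finset.sum_le_sum
    intro y hy
    by_cases hxy : x = y
    · rw [hxy, sub_self, norm_zero, zero_pow two_ne_zero]; positivity
    · have h3 := hQ x hx y hy hxy
      rw [dist_eq_norm] at h3
      nlinarith [norm_nonneg (x - y)]
  have h3 : ∑ x ∈ Q, ‖x - c‖ ^ 2 ≤ Q.card * (2 * β ^ 2) := by
    have h4 : (2 * (Q.card : ℝ)) * ∑ x ∈ Q, ‖x - c‖ ^ 2 ≤
        (2 * (Q.card : ℝ)) * (Q.card * (2 * β ^ 2)) := by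
      rw [← h1]
      refine h2.trans (le_of_eq ?_)
      ring
    exact le_of_mul_le_mul_left h4 (by positivity)
  have h4 : ((Q.filter (fun x => ¬ dist x c < √T)).card : ℝ) * T ≤ ∑ x ∈ Q, ‖x - c‖ ^ 2 := by
    rw [← nsmul_eq_mul, ← Finset.sum_const]
    calc ∑ x ∈ Q.filter (fun x => ¬ dist x c < √T), T
        ≤ ∑ x ∈ Q.filter (fun x => ¬ dist x c < √T), ‖x - c‖ ^ 2 := by
          apply Finset.sum_le_sum
          intro x hx
          have h5 := (Finset.mem_filter.1 hx).2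
          rw [not_lt, dist_eq_norm] at h5
          exact (Real.sqrt_le_left (norm_nonneg _)).1 h5
      _ ≤ _ := by
          apply Finset.sum_le_sum_of_subset_of_nonneg (Finset.filter_subset _ _)
          intro x _ _
          positivity
  have h5 : ((Q.filter (fun x => dist x c < √T)).card : ℝ) +
      (Q.filter (fun x => ¬ dist x c < √T)).card = Q.card := by
    exact_mod_cast Finset.card_filter_add_card_filter_not _
  have h6 : ((Q.filter (fun x => ¬ dist x c < √T)).card : ℝ) * (1 + 1 / j) ≤ Q.card := by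
    have h7 := h4.trans h3
    have h8 : (((Q.filter (fun x => ¬ dist x c < √T)).card : ℝ) * (1 + 1 / j)) * (2 * β ^ 2) ≤
        Q.card * (2 * β ^ 2) := by
      refine le_trans (le_of_eq ?_) h7
      rw [hT]; ring
    exact le_of_mul_le_mul_right h8 (by positivity)
  have h7 : ((Q.filter (fun x => ¬ dist x c < √T)).card : ℝ) * (j + 1) ≤ Q.card * j := by
    have h8 := mul_le_mul_of_nonneg_right h6 hj0.le
    refine le_trans (le_of_eq ?_) h8
    field_simp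
  have h8 : (Q.card : ℝ) ≤ (j + 1) * (Q.filter (fun x => dist x c < √T)).card := by nlinarith
  exact_mod_cast h8

end

section
variable {E : Type*} [NormedAddCommGroup E] [InnerProductSpace ℝ E] [FiniteDimensional ℝ E]
  [MeasurableSpace E] [BorelSpace E]

/-- Packings with bounded clusters. -/
theorem exists_cluster_packing [Nontrivial E] {β : ℝ} (hβ : √2 ≤ β) {j : ℕ} (hj : 1 ≤ j) {a : ℝ}
    (ha : 2 ≤ a) {K : ℕ} (hK : 48 * a ^ 2 * ((j : ℝ) + 1) ^ Module.finrank ℝ E ≤ a ^ (K + 1)) :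
    ∃ X : Set E, IsPacking X 1 ∧ ClusterLE X (2 * β) ((j + 1) * K) ∧
      1 / (8 * a ^ 2 * (√2 * β * (1 + 1 / j) ^ 2) ^ Module.finrank ℝ E) ≤ upperDensity X 1 := by
  classical
  set n := Module.finrank ℝ E with hn
  have hj0 : (0 : ℝ) < j := by exact_mod_cast hj
  have hs2 : 0 < √(2 : ℝ) := Real.sqrt_pos.2 (by norm_num)
  have hs22 : √(2 : ℝ) ^ 2 = 2 := Real.sq_sqrt (by norm_num)
  have hβ0 : 0 < β := lt_of_lt_of_le hs2 hβ
  have hβ2 : 2 ≤ β ^ 2 := by nlinarith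
  set ρ₀ : ℝ := √(2 * β ^ 2 * (1 + 1 / j)) with hρ₀
  have hρ₀2 : 2 ≤ ρ₀ := by
    apply Real.le_sqrt_of_sq_le
    have : (0 : ℝ) ≤ 1 / j := by positivity
    nlinarith
  have hρ₀le : ρ₀ ≤ √2 * β * (1 + 1 / j) := by
    rw [hρ₀, Real.sqrt_le_left (by positivity)]
    have h1 : (1 : ℝ) ≤ 1 + 1 / j := by
      have : (0 : ℝ) ≤ 1 / j := by positivity
      linarith
    have h2 : (√2 * β * (1 + 1 / (j : ℝ))) ^ 2 = 2 * β ^ 2 * (1 + 1 / j) * (1 + 1 / j) := by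
      rw [mul_pow, mul_pow, hs22]; ring
    rw [h2]
    exact le_mul_of_one_le_right (by positivity) h1
  set τ : ℝ := ρ₀ / j with hτ
  have hτ0 : 0 < τ := by positivity
  have hratio : (ρ₀ + τ) / τ = j + 1 := by
    rw [hτ]; field_simp
  obtain ⟨R0, hR0⟩ := piece (E := E) (ρ₀ := ρ₀) (τ := τ) (a := a) (K := K) hρ₀2 hτ0 ha (by
    rw [hratio]; exact hK)
  set 𝒬 : Set (Finset E) := {Q | Q.card = (j + 1) * K + 1 ∧ ∀ x ∈ Q, ∀ y ∈ Q, x ≠ y →
    dist x y < 2 * β} with h𝒬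
  have h2β : 2 ≤ 2 * β := by nlinarith
  obtain ⟨X, hX, hXQ, hXd⟩ := glue (E := E) (R0 := R0) (D := 2 * β) (𝒬 := 𝒬)
    (a := 1 / (8 * a ^ 2 * (ρ₀ + τ) ^ n)) h2β
    (by
      rintro Q ⟨hQ1, hQ2⟩
      refine ⟨Finset.card_pos.1 (by omega), ?_⟩
      intro x hx y hy
      by_cases hxy : x = y
      · rw [hxy, dist_self]; positivity
      · exact hQ2 x hx y hy hxy)
    (fun R hR => by
      obtain ⟨P, hP1, hP2, hP3, hP4⟩ := hR0 R hR
      refine ⟨P, hP1, ?_, hP3, hP4⟩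
      rintro Q ⟨hQ1, hQ2⟩ hQP
      obtain ⟨c, hc⟩ := near_part hβ0 hQ2 hj
      have h1 : (Q.filter (fun x => dist x c < √(2 * β ^ 2 * (1 + 1 / j)))).card ≤ K := by
        refine le_trans ?_ (hP2 c)
        unfold mu
        apply Finset.card_le_card
        exact Finset.filter_subset_filter _ hQP
      have h2 := Nat.mul_le_mul_left (j + 1) h1
      omega)
  refine ⟨X, hX, ?_, ?_⟩
  · intro Q hQX hQd
    by_contra hcon
    push Not at hcon
    obtain ⟨Q', hQ'Q, hQ'c⟩ := Finset.exists_subset_card_eq (show (j + 1) * K + 1 ≤ Q.card from hcon)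
    apply hXQ Q' ⟨hQ'c, fun x hx y hy hxy => hQd x (hQ'Q hx) y (hQ'Q hy) hxy⟩
    exact (Finset.coe_subset.2 hQ'Q).trans hQX
  · refine le_trans ?_ hXd
    apply one_div_le_one_div_of_le (by positivity)
    apply mul_le_mul_of_nonneg_left _ (by positivity)
    apply pow_le_pow_left₀ (by positivity)
    have h1 : ρ₀ + τ = ρ₀ * (1 + 1 / j) := by rw [hτ]; ring
    rw [h1]
    calc ρ₀ * (1 + 1 / j) ≤ (√2 * β * (1 + 1 / j)) * (1 + 1 / j) :=
          mul_le_mul_of_nonneg_right hρ₀le (by positivity)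
      _ = _ := by ring

end

instance inst_nontriv (n : ℕ) [NeZero n] : Nontrivial (EuclideanSpace ℝ (Fin n)) :=
  Module.nontrivial_of_finrank_pos (R := ℝ)
    (by rw [finrank_euclideanSpace_fin]; exact Nat.pos_of_ne_zero (NeZero.ne n))

/-- In high dimensions: the exponent `(√2 β)^{-n}` is attained, up to an arbitrarily small loss, by
packings with clusters of bounded size. -/
theorem exists_cluster_packing' {β : ℝ} (hβ : √2 ≤ β) {b : ℝ} (hb : 1 < b) :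
    ∃ K n₀ : ℕ, ∀ n ≥ n₀, ∃ X : Set (EuclideanSpace ℝ (Fin n)), IsPacking X 1 ∧
      ClusterLE X (2 * β) K ∧ (1 / (b * (√2 * β))) ^ n ≤ upperDensity X 1 := by
  have hs2 : 0 < √(2 : ℝ) := Real.sqrt_pos.2 (by norm_num)
  have hβ0 : 0 < β := lt_of_lt_of_le hs2 hβ
  -- `b₁ ^ 4 ≤ b`
  obtain ⟨b₁, hb₁, hb₁b⟩ : ∃ b₁ : ℝ, 1 < b₁ ∧ b₁ ^ 4 = b := by
    refine ⟨√(√b), ?_, ?_⟩
    · rw [Real.lt_sqrt (by norm_num), one_pow, Real.lt_sqrt (by norm_num), one_pow]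
      exact hb
    · have h1 : √(√b) ^ 2 = √b := Real.sq_sqrt (Real.sqrt_nonneg _)
      have h2 : √b ^ 2 = b := Real.sq_sqrt (by linarith)
      calc √(√b) ^ 4 = (√(√b) ^ 2) ^ 2 := by ring
        _ = b := by rw [h1, h2]
  -- the number `j`
  obtain ⟨j, hj, hjb⟩ : ∃ j : ℕ, 1 ≤ j ∧ (1 + 1 / (j : ℝ)) ^ 2 ≤ b₁ := by
    have h1 : Tendsto (fun j : ℕ => (1 + 1 / (j : ℝ)) ^ 2) atTop (𝓝 ((1 + 0) ^ 2)) :=
      (tendsto_const_nhds.add tendsto_one_div_atTop_nhds_zero_nat).pow 2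
    rw [add_zero, one_pow] at h1
    have h2 := (h1.eventually (gt_mem_nhds hb₁)).and (eventually_ge_atTop 1)
    obtain ⟨j, h3, h4⟩ := h2.exists
    exact ⟨j, h4, h3.le⟩
  obtain ⟨K₀, hK₀⟩ := pow_unbounded_of_one_lt (48 * ((j : ℝ) + 1)) hb₁
  obtain ⟨n₁, hn₁⟩ := pow_unbounded_of_one_lt 8 hb₁
  refine ⟨(j + 1) * (K₀ + 1), max n₁ 1, fun n hn => ?_⟩
  have hn1 : 1 ≤ n := le_trans (le_max_right _ _) hn
  have hnn : n₁ ≤ n := le_trans (le_max_left _ _) hn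
  have : NeZero n := ⟨by omega⟩
  have h8 : 8 ≤ b₁ ^ n := hn₁.le.trans (pow_le_pow_right₀ hb₁.le hnn)
  have hj0 : (0 : ℝ) < j := by exact_mod_cast hj
  obtain ⟨X, hX, hXc, hXd⟩ := exists_cluster_packing (E := EuclideanSpace ℝ (Fin n)) hβ hj
    (a := b₁ ^ n) (by linarith) (K := K₀ + 1) (by
      rw [finrank_euclideanSpace_fin]
      have h1 : (b₁ ^ n) ^ (K₀ + 1 + 1) = (b₁ ^ n) ^ 2 * (b₁ ^ K₀) ^ n := by ring
      rw [h1]
      have h2 : (48 * ((j : ℝ) + 1)) ^ n ≤ (b₁ ^ K₀) ^ n :=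
        pow_le_pow_left₀ (by positivity) hK₀.le n
      have h3 : 48 * ((j : ℝ) + 1) ^ n ≤ (48 * ((j : ℝ) + 1)) ^ n := by
        rw [mul_pow]
        apply mul_le_mul_of_nonneg_right _ (by positivity)
        exact le_self_pow₀ (by norm_num) (by omega)
      calc 48 * (b₁ ^ n) ^ 2 * ((j : ℝ) + 1) ^ n
          = (b₁ ^ n) ^ 2 * (48 * ((j : ℝ) + 1) ^ n) := by ring
        _ ≤ _ := mul_le_mul_of_nonneg_left (h3.trans h2) (by positivity))
  refine ⟨X, hX, hXc, le_trans ?_ hXd⟩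
  rw [finrank_euclideanSpace_fin, one_div, inv_pow, one_div]
  apply inv_anti₀ (by positivity)
  have h1 : (√2 * β * (1 + 1 / (j : ℝ)) ^ 2) ^ n ≤ (√2 * β) ^ n * b₁ ^ n := by
    rw [← mul_pow]
    apply pow_le_pow_left₀ (by positivity)
    exact mul_le_mul_of_nonneg_left hjb (by positivity)
  calc 8 * (b₁ ^ n) ^ 2 * (√2 * β * (1 + 1 / (j : ℝ)) ^ 2) ^ n
      ≤ b₁ ^ n * (b₁ ^ n) ^ 2 * ((√2 * β) ^ n * b₁ ^ n) := by
        apply mul_le_mul _ h1 (by positivity) (by positivity)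
        exact mul_le_mul_of_nonneg_right h8 (by positivity)
    _ = (b * (√2 * β)) ^ n := by
        rw [← hb₁b]; ring

end Pool.Agent.N621.SP
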