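import Pool.Agent.H818R2.Base2

/-! Gluing finite pieces that avoid a family of small configurations (for MP_dbfdb2_gt). -/

open MeasureTheory Metric Filter Set
open scoped Topology Pointwise
open Pool.Agent.H818R2

namespace Pool.Agent.N621.SP

/-- rapidly growing radii with gaps `g` -/
noncomputable def radg (g R0 : ℝ) : ℕ → ℝ
  | 0 => R0
  | (j + 1) => (j + 2) * (radg g R0 j + g + 1)

lemma radg_ge {g R0 : ℝ} (hg : 0 ≤ g) (h0 : 1 ≤ R0) (j : ℕ) : R0 + j ≤ radg g R0 j := by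
  induction j with
  | zero => simp [radg]
  | succ j ih =>
    simp only [radg]
    push_cast
    have hj : (0 : ℝ) ≤ j := Nat.cast_nonneg j
    nlinarith

lemma radg_step {g R0 : ℝ} (hg : 0 ≤ g) (h0 : 1 ≤ R0) (j : ℕ) :
    radg g R0 j + g + 1 ≤ radg g R0 (j + 1) := by
  have h := radg_ge hg h0 j
  have hj : (0 : ℝ) ≤ j := Nat.cast_nonneg j
  simp only [radg]
  nlinarith

lemma radg_mono {g R0 : ℝ} (hg : 0 ≤ g) (h0 : 1 ≤ R0) {i j : ℕ} (hij : i ≤ j) :
    radg g R0 i ≤ radg g R0 j := by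
  induction hij with
  | refl => exact le_rfl
  | step _ ih => exact ih.trans (by have := radg_step hg h0; linarith [this ‹_›])

section
variable {E : Type*} [NormedAddCommGroup E] [InnerProductSpace ℝ E] [FiniteDimensional ℝ E]
  [MeasurableSpace E] [BorelSpace E]

/-- The gluing lemma: large separated sets in all large balls which avoid the configurations of a
family `𝒬` of configurations of diameter less than `D` give a dense packing which avoids them. -/
theorem glue [Nontrivial E] {a R0 D : ℝ} (hD : 2 ≤ D) {𝒬 : Set (Finset E)}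
    (h𝒬 : ∀ Q ∈ 𝒬, Q.Nonempty ∧ ∀ x ∈ Q, ∀ y ∈ Q, dist x y < D)
    (h : ∀ R : ℝ, R0 ≤ R → ∃ P : Finset E, Sep 2 P ∧ (∀ Q ∈ 𝒬, ¬ Q ⊆ P) ∧ (∀ x ∈ P, ‖x‖ ≤ R) ∧
      a * R ^ Module.finrank ℝ E ≤ P.card) :
    ∃ X : Set E, IsPacking X 1 ∧ (∀ Q ∈ 𝒬, ¬ (Q : Set E) ⊆ X) ∧ a ≤ upperDensity X 1 := by
  classical
  wlog hR0 : 1 ≤ R0 generalizing R0
  · exact this (R0 := max R0 1) (fun R hR => h R ((le_max_left _ _).trans hR)) (le_max_right _ _)
  have hg : 0 ≤ D := by linarith
  set n := Module.finrank ℝ E with hn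
  have hn0 : n ≠ 0 := Module.finrank_pos.ne'
  choose! P hPs hPQ hPR hPc using h
  set ρ : ℕ → ℝ := radg D R0 with hρ
  have hρ0 : ∀ j, R0 ≤ ρ j := fun j => by
    have := radg_ge hg hR0 j
    have hj : (0 : ℝ) ≤ j := Nat.cast_nonneg j
    linarith
  -- the packing
  set X : Set E := {x | ∃ j : ℕ, x ∈ P (ρ (j + 1)) ∧ ρ j + D < ‖x‖} with hX
  have aux : ∀ i j : ℕ, i < j → ∀ x y : E, x ∈ P (ρ (i + 1)) → ρ j + D < ‖y‖ →
      D ≤ dist x y := by
    intro i j hij x y hx hy
    have h1 : ‖x‖ ≤ ρ (i + 1) := hPR _ (hρ0 _) x hx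
    have h2 : ρ (i + 1) ≤ ρ j := radg_mono hg hR0 hij
    rw [dist_comm, dist_eq_norm]
    have := norm_sub_norm_le y x
    linarith
  have aux2 : ∀ i j : ℕ, ∀ x y : E, x ∈ P (ρ (i + 1)) → ρ i + D < ‖x‖ → y ∈ P (ρ (j + 1)) →
      ρ j + D < ‖y‖ → dist x y < D → i = j := by
    intro i j x y hx hx' hy hy' hd
    rcases lt_trichotomy i j with hij | hij | hij
    · exact absurd (aux i j hij x y hx hy') (not_le.2 hd)
    · exact hij
    · rw [dist_comm] at hd
      exact absurd (aux j i hij y x hy hx') (not_le.2 hd)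
  have hsep : ∀ x ∈ X, ∀ y ∈ X, x ≠ y → 2 ≤ dist x y := by
    rintro x ⟨i, hx, hx'⟩ y ⟨j, hy, hy'⟩ hxy
    by_contra hcon
    push Not at hcon
    have hij := aux2 i j x y hx hx' hy hy' (by linarith)
    subst hij
    exact absurd (hPs _ (hρ0 _) x hx y hy hxy) (not_le.2 hcon)
  have havoid : ∀ Q ∈ 𝒬, ¬ (Q : Set E) ⊆ X := by
    intro Q hQ hQX
    obtain ⟨⟨q, hq⟩, hQd⟩ := h𝒬 Q hQ
    obtain ⟨i, hi, hi'⟩ := hQX hq
    apply hPQ _ (hρ0 (i + 1)) Q hQ
    intro y hy
    obtain ⟨j, hj, hj'⟩ := hQX hy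
    have := aux2 i j q y hi hi' hj hj' (hQd q hq y hy)
    rw [this]
    exact hj
  have hpack : IsPacking X 1 := ⟨one_pos, fun x hx y hy hxy => disj_of_sep (hsep x hx y hy hxy)⟩
  refine ⟨X, hpack, havoid, ?_⟩
  -- lower bound along the sequence `ρ (j+1) + 1`
  have key : ∀ j : ℕ, (a * ρ (j + 1) ^ n - (ρ j + D + 1) ^ n) / (ρ (j + 1) + 1) ^ n ≤
      volume.real (ball (0 : E) (ρ (j + 1) + 1) ∩ body X 1) /
        volume.real (ball (0 : E) (ρ (j + 1) + 1)) := by
    intro j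
    have hpos : 0 < ρ (j + 1) + 1 := by have := hρ0 (j + 1); linarith
    set F := (P (ρ (j + 1))).filter (fun x => ρ j + D < ‖x‖) with hF
    have h1 := le_body hpack (T := ρ (j + 1)) (F := F)
      (fun x hx => by
        simp only [hF, Finset.coe_filter, mem_ofPred_eq] at hx
        exact ⟨j, hx.1, hx.2⟩)
      (fun x hx => hPR _ (hρ0 _) x (Finset.mem_filter.1 hx).1)
    have h2 : ((P (ρ (j + 1))).filter (fun x => ¬ ρ j + D < ‖x‖)).card ≤ (ρ j + D + 1) ^ n := by
      have := card_le (c := (0 : E)) (R := ρ j + D)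
        ((hPs _ (hρ0 (j + 1))).mono (Finset.filter_subset (fun x => ¬ ρ j + D < ‖x‖) _))
        (by have := hρ0 j; linarith)
        (fun x hx => by
          rw [dist_zero_right]
          exact not_lt.1 (Finset.mem_filter.1 hx).2)
      exact this
    have h3 : (F.card : ℝ) + ((P (ρ (j + 1))).filter (fun x => ¬ ρ j + D < ‖x‖)).card
        = (P (ρ (j + 1))).card := by
      exact_mod_cast Finset.card_filter_add_card_filter_not _
    have h4 := hPc _ (hρ0 (j + 1))
    rw [vol_ball 0 hpos, div_le_div_iff₀ (by positivity) (by have := vb_pos (E := E); positivity)]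
    have h5 : a * ρ (j + 1) ^ n - (ρ j + D + 1) ^ n ≤ F.card := by linarith
    calc (a * ρ (j + 1) ^ n - (ρ j + D + 1) ^ n) * ((ρ (j + 1) + 1) ^ n * vb E)
        ≤ F.card * ((ρ (j + 1) + 1) ^ n * vb E) :=
          mul_le_mul_of_nonneg_right h5 (by have := vb_pos (E := E); positivity)
      _ = (F.card * vb E) * (ρ (j + 1) + 1) ^ n := by ring
      _ ≤ _ := mul_le_mul_of_nonneg_right h1 (by positivity)
  -- the lower bounds tend to `a`
  have hρtop : Tendsto ρ atTop atTop := by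
    apply tendsto_atTop_mono (fun j => ?_) (tendsto_natCast_atTop_atTop (R := ℝ))
    have := radg_ge hg hR0 j
    have hj : (0 : ℝ) ≤ j := Nat.cast_nonneg j
    linarith
  have hlim : Tendsto (fun j : ℕ => (a * ρ (j + 1) ^ n - (ρ j + D + 1) ^ n) /
      (ρ (j + 1) + 1) ^ n) atTop (𝓝 a) := by
    have e1 : Tendsto (fun j : ℕ => ρ (j + 1) / (ρ (j + 1) + 1)) atTop (𝓝 1) := by
      have h1 : Tendsto (fun j : ℕ => 1 - 1 / (ρ (j + 1) + 1)) atTop (𝓝 (1 - 0)) := by
        apply tendsto_const_nhds.sub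
        apply tendsto_const_nhds.div_atTop
        exact tendsto_atTop_add_const_right _ _ (hρtop.comp (tendsto_add_atTop_nat 1))
      rw [sub_zero] at h1
      refine h1.congr (fun j => ?_)
      have : 0 < ρ (j + 1) + 1 := by have := hρ0 (j + 1); linarith
      field_simp
      ring
    have e2 : Tendsto (fun j : ℕ => (ρ j + D + 1) / (ρ (j + 1) + 1)) atTop (𝓝 0) := by
      have h1 : Tendsto (fun j : ℕ => (1 : ℝ) / (j + 1)) atTop (𝓝 0) :=
        tendsto_one_div_add_atTop_nhds_zero_nat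
      refine squeeze_zero (fun j => ?_) (fun j => ?_) h1
      · have h1 := hρ0 j
        have h2 := hρ0 (j + 1)
        exact div_nonneg (by linarith) (by linarith)
      · have h2 := hρ0 j; have := hρ0 (j + 1)
        have hj : (0 : ℝ) ≤ j := Nat.cast_nonneg j
        rw [div_le_div_iff₀ (by linarith) (by positivity)]
        have : ρ (j + 1) = (j + 2) * (ρ j + D + 1) := rfl
        rw [this]; nlinarith
    have e3 : Tendsto (fun j : ℕ => a * (ρ (j + 1) / (ρ (j + 1) + 1)) ^ n -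
        ((ρ j + D + 1) / (ρ (j + 1) + 1)) ^ n) atTop (𝓝 (a * 1 ^ n - 0 ^ n)) :=
      ((e1.pow n).const_mul a).sub (e2.pow n)
    rw [one_pow, mul_one, zero_pow hn0, sub_zero] at e3
    refine e3.congr (fun j => ?_)
    have : 0 < ρ (j + 1) + 1 := by have := hρ0 (j + 1); linarith
    rw [div_pow, div_pow, sub_div, mul_div_assoc]
  apply le_of_forall_lt
  intro c hc
  obtain ⟨c', hc', hc'a⟩ := exists_between hc
  have h7 : ∀ᶠ j : ℕ in atTop, c' < (a * ρ (j + 1) ^ n - (ρ j + D + 1) ^ n) /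
      (ρ (j + 1) + 1) ^ n :=
    hlim.eventually (lt_mem_nhds hc'a)
  refine lt_of_lt_of_le hc' ?_
  apply le_limsup_of_frequently_le _ (ratio_bdd X 1)
  have h8 : Tendsto (fun j : ℕ => ρ (j + 1) + 1) atTop atTop :=
    tendsto_atTop_add_const_right _ _ (hρtop.comp (tendsto_add_atTop_nat 1))
  apply h8.frequently
  apply Eventually.frequently
  filter_upwards [h7] with j hj
  exact hj.le.trans (key j)

end

end Pool.Agent.N621.SP
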