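import Pool.Agent.N621.SP.Glue

/-! Choosing centres one after the other with a potential function (for MP_dbfdb2_gt). -/

open MeasureTheory Metric Filter Set
open scoped Topology ENNReal
open Pool.Agent.H818R2

namespace Pool.Agent.N621.SP

section
variable {E : Type*} [NormedAddCommGroup E] [InnerProductSpace ℝ E] [FiniteDimensional ℝ E]
  [MeasurableSpace E] [BorelSpace E]

open Classical in
/-- the potential `a ^ (number of points of P at distance < ρ from z)` -/
noncomputable def pot (P : Finset E) (ρ : ℝ) (a : ℝ≥0∞) (z : E) : ℝ≥0∞ :=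
  ∏ x ∈ P, if dist x z < ρ then a else 1

open Classical in
/-- the number of points of `P` at distance `< ρ` from `z` -/
noncomputable def mu (P : Finset E) (ρ : ℝ) (z : E) : ℕ := (P.filter (fun x => dist x z < ρ)).card

lemma pot_eq (P : Finset E) (ρ : ℝ) (a : ℝ≥0∞) (z : E) : pot P ρ a z = a ^ mu P ρ z := by
  classical
  unfold pot mu
  rw [Finset.prod_ite]
  simp

lemma measurable_pot (P : Finset E) (ρ : ℝ) (a : ℝ≥0∞) : Measurable (pot P ρ a) := by
  classical
  unfold pot
  apply Finset.measurable_prod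
  intro x _
  apply Measurable.ite _ measurable_const measurable_const
  exact measurableSet_lt (measurable_const.dist measurable_id) measurable_const

lemma vol_ball_enn (x : E) {R : ℝ} (hR : 0 < R) :
    volume (ball x R) = ENNReal.ofReal (R ^ Module.finrank ℝ E * vb E) := by
  rw [← vol_ball x hR, measureReal_def, ENNReal.ofReal_toReal measure_ball_lt_top.ne]

open Classical in
lemma exists_good {U W : Set E} (hU0 : volume U ≠ 0) (hU1 : volume U ≠ ∞)
    {g : E → ℝ≥0∞} (hg : Measurable g) (ρ : ℝ) :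
    ∃ y ∈ U, ∫⁻ z in W, (if dist y z < ρ then g z else 0) ≤
      volume (ball (0 : E) ρ) * (∫⁻ z in W, g z) / volume U := by
  have hmeas : Measurable (fun p : E × E => if dist p.1 p.2 < ρ then g p.2 else 0) := by
    apply Measurable.ite _ (hg.comp measurable_snd) measurable_const
    exact measurableSet_lt (measurable_fst.dist measurable_snd) measurable_const
  have hf : Measurable (fun y => ∫⁻ z in W, (if dist y z < ρ then g z else 0)) :=
    Measurable.lintegral_prod_right' (ν := volume.restrict W) hmeas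
  obtain ⟨y, hy, h⟩ := exists_le_setLAverage hU0 hU1 (hf.aemeasurable (μ := volume.restrict U))
  refine ⟨y, hy, h.trans ?_⟩
  rw [setLAverage_eq]
  gcongr
  rw [lintegral_lintegral_swap hmeas.aemeasurable, ← lintegral_const_mul _ hg]
  apply lintegral_mono
  intro z
  calc ∫⁻ y in U, (if dist y z < ρ then g z else 0)
      ≤ ∫⁻ y, (if dist y z < ρ then g z else 0) := setLIntegral_le_lintegral _ _
    _ = ∫⁻ y, (ball z ρ).indicator (fun _ => g z) y := by
        apply lintegral_congr
        intro y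
        simp only [indicator, mem_ball]
    _ = volume (ball (0 : E) ρ) * g z := by
        rw [lintegral_indicator_const measurableSet_ball, Measure.addHaar_ball_center, mul_comm]

lemma construct [Nontrivial E] {R ρ a : ℝ} (hR : 0 < R) (hρ : 2 ≤ ρ) (ha : 1 ≤ a) {N : ℕ}
    (hN : 2 * a * ρ ^ Module.finrank ℝ E * N ≤ R ^ Module.finrank ℝ E) :
    ∀ k ≤ N, ∃ P : Finset E, P.card = k ∧ Sep 2 P ∧ (∀ x ∈ P, ‖x‖ < R) ∧
      ∫⁻ z in ball (0 : E) (R + ρ), pot P ρ (ENNReal.ofReal a) z ≤
        ENNReal.ofReal ((1 + 2 * a * ρ ^ Module.finrank ℝ E / R ^ Module.finrank ℝ E) ^ k) *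
          volume (ball (0 : E) (R + ρ)) := by
  classical
  set n := Module.finrank ℝ E with hn
  have hv := vb_pos (E := E)
  intro k
  induction k with
  | zero =>
    intro _
    refine ⟨∅, rfl, by intro x hx; simp at hx, by simp, ?_⟩
    simp [pot]
  | succ k ih =>
    intro hk
    obtain ⟨P, hPk, hPs, hPR, hPi⟩ := ih (by omega)
    set U : Set E := ball 0 R \ ⋃ x ∈ P, ball x 2 with hU
    have hUtop : volume U ≠ ∞ := ((measure_mono diff_subset).trans_lt measure_ball_lt_top).ne
    have hUvol : R ^ n / 2 * vb E ≤ volume.real U := by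
      have h1 : volume.real (ball (0 : E) R) ≤ volume.real U + ∑ x ∈ P, volume.real (ball x (2 : ℝ)) := by
        refine le_trans ?_ (add_le_add_right (measureReal_biUnion_finset_le P
          (fun x => ball x (2 : ℝ))) _)
        refine le_trans (measureReal_mono ?_ ?_) (measureReal_union_le _ _)
        · intro z hz
          by_cases h : z ∈ ⋃ x ∈ P, ball x (2 : ℝ)
          · exact Or.inr h
          · exact Or.inl ⟨hz, h⟩
        · apply ne_of_lt
          refine (measure_union_le _ _).trans_lt (ENNReal.add_lt_top.2 ⟨hUtop.lt_top, ?_⟩)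
          exact measure_biUnion_lt_top (Finset.finite_toSet _) (fun i _ => measure_ball_lt_top)
      rw [vol_ball 0 hR, Finset.sum_congr rfl (fun x _ => vol_ball x two_pos), Finset.sum_const,
        nsmul_eq_mul, hPk, ← mul_assoc] at h1
      have h2 : (k : ℝ) * 2 ^ n ≤ R ^ n / 2 := by
        have e1 : (k : ℝ) ≤ N := by exact_mod_cast (by omega : k ≤ N)
        have e2 : (2 : ℝ) ^ n ≤ ρ ^ n := pow_le_pow_left₀ (by norm_num) hρ n
        have e3 : (k : ℝ) * 2 ^ n ≤ N * ρ ^ n := mul_le_mul e1 e2 (by positivity) (by positivity)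
        have e4 : (N : ℝ) * ρ ^ n ≤ a * (ρ ^ n * N) := by
          have : 0 ≤ ρ ^ n * (N : ℝ) := by positivity
          nlinarith
        nlinarith
      have h3 : (k : ℝ) * 2 ^ n * vb E ≤ R ^ n / 2 * vb E := mul_le_mul_of_nonneg_right h2 hv.le
      rw [hn]
      rw [hn] at h3
      linarith
    have hUvol' : ENNReal.ofReal (R ^ n / 2 * vb E) ≤ volume U := by
      apply ENNReal.ofReal_le_of_le_toReal
      exact hUvol
    have hU0 : volume U ≠ 0 := by
      intro h
      rw [h, nonpos_iff_eq_zero, ENNReal.ofReal_eq_zero] at hUvol'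
      have : 0 < R ^ n / 2 * vb E := by positivity
      linarith
    obtain ⟨y, hyU, hy⟩ := exists_good (W := ball (0 : E) (R + ρ)) hU0 hUtop
      (measurable_pot P ρ (ENNReal.ofReal a)) ρ
    have hyP : ∀ x ∈ P, 2 ≤ dist y x := by
      intro x hx
      by_contra hcon
      push Not at hcon
      exact hyU.2 (mem_iUnion₂.2 ⟨x, hx, hcon⟩)
    have hyP' : y ∉ P := fun h => by
      have := hyP y h
      rw [dist_self] at this
      norm_num at this
    refine ⟨insert y P, by rw [Finset.card_insert_of_notMem hyP', hPk], ?_, ?_, ?_⟩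
    · intro x hx z hz hxz
      rcases Finset.mem_insert.1 hx with hx' | hx' <;> rcases Finset.mem_insert.1 hz with hz' | hz'
      · exact absurd (hx'.trans hz'.symm) hxz
      · rw [hx']; exact hyP z hz'
      · rw [hz', dist_comm]; exact hyP x hx'
      · exact hPs x hx' z hz' hxz
    · intro x hx
      rcases Finset.mem_insert.1 hx with hx' | hx'
      · rw [hx']; exact mem_ball_zero_iff.1 hyU.1
      · exact hPR x hx'
    · set I := ∫⁻ z in ball (0 : E) (R + ρ), pot P ρ (ENNReal.ofReal a) z with hI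
      have h1 : ∫⁻ z in ball (0 : E) (R + ρ), pot (insert y P) ρ (ENNReal.ofReal a) z ≤
          I + ENNReal.ofReal a * ∫⁻ z in ball (0 : E) (R + ρ),
            (if dist y z < ρ then pot P ρ (ENNReal.ofReal a) z else 0) := by
        have hm : Measurable (fun z => if dist y z < ρ then pot P ρ (ENNReal.ofReal a) z else 0) := by
          apply Measurable.ite _ (measurable_pot P ρ _) measurable_const
          exact measurableSet_lt (measurable_const.dist measurable_id) measurable_const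
        rw [← lintegral_const_mul _ hm, ← lintegral_add_left (measurable_pot P ρ _)]
        apply lintegral_mono
        intro z
        simp only [pot]
        rw [Finset.prod_insert hyP']
        by_cases hz : dist y z < ρ
        · simp only [hz, if_true]
          exact le_add_self
        · simp only [hz, if_false, one_mul, mul_zero, add_zero]
          exact le_rfl
      have h2 : volume (ball (0 : E) ρ) * I / volume U ≤
          ENNReal.ofReal (2 * ρ ^ n / R ^ n) * I := by
        apply ENNReal.div_le_of_le_mul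
        rw [vol_ball_enn 0 (by linarith)]
        calc ENNReal.ofReal (ρ ^ n * vb E) * I
            = ENNReal.ofReal (2 * ρ ^ n / R ^ n) * I * ENNReal.ofReal (R ^ n / 2 * vb E) := by
              rw [mul_right_comm, ← ENNReal.ofReal_mul (by positivity)]
              congr 2
              field_simp
          _ ≤ _ := by gcongr
      have h3 : ∫⁻ z in ball (0 : E) (R + ρ), pot (insert y P) ρ (ENNReal.ofReal a) z ≤
          I + ENNReal.ofReal a * (ENNReal.ofReal (2 * ρ ^ n / R ^ n) * I) := by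
        refine h1.trans ?_
        gcongr
        exact hy.trans h2
      refine h3.trans ?_
      calc I + ENNReal.ofReal a * (ENNReal.ofReal (2 * ρ ^ n / R ^ n) * I)
          = ENNReal.ofReal (1 + 2 * a * ρ ^ n / R ^ n) * I := by
            rw [ENNReal.ofReal_add (by norm_num) (by positivity), ENNReal.ofReal_one, add_mul,
              one_mul, ← mul_assoc, ← ENNReal.ofReal_mul (by linarith)]
            congr 3
            ring
        _ ≤ ENNReal.ofReal (1 + 2 * a * ρ ^ n / R ^ n) *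
            (ENNReal.ofReal ((1 + 2 * a * ρ ^ n / R ^ n) ^ k) * volume (ball (0 : E) (R + ρ))) := by
            gcongr
        _ = _ := by
            rw [← mul_assoc, ← ENNReal.ofReal_mul (by positivity), pow_succ' _ k]

lemma mu_mono {P : Finset E} {ρ₀ τ : ℝ} {z z' : E} (h : dist z z' < τ) :
    mu P ρ₀ z ≤ mu P (ρ₀ + τ) z' := by
  classical
  apply Finset.card_le_card
  intro x hx
  rw [Finset.mem_filter] at hx ⊢
  refine ⟨hx.1, ?_⟩
  have := dist_triangle x z z'
  linarith [hx.2]

open Classical in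
lemma few_bad {P : Finset E} {R ρ₀ τ a : ℝ} (hPR : ∀ x ∈ P, ‖x‖ < R)
    (ha : 2 ≤ a) (K : ℕ) :
    ((P.filter (fun x => ∃ z, dist x z < ρ₀ ∧ K < mu P ρ₀ z)).card : ℝ≥0∞) *
      volume (ball (0 : E) τ) * ENNReal.ofReal (a ^ (K + 1)) ≤
      ∫⁻ z in ball (0 : E) (R + (ρ₀ + τ)), pot P (ρ₀ + τ) (ENNReal.ofReal (a ^ 2)) z := by
  set J := P.filter (fun x => ∃ z, dist x z < ρ₀ ∧ K < mu P ρ₀ z) with hJ
  have hJ' : ∀ x : E, ∃ z : E, x ∈ J → (dist x z < ρ₀ ∧ K < mu P ρ₀ z) := by
    intro x
    by_cases hx : x ∈ J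
    · obtain ⟨z, hz⟩ := (Finset.mem_filter.1 hx).2
      exact ⟨z, fun _ => hz⟩
    · exact ⟨0, fun h => absurd h hx⟩
  choose c hc using hJ'
  have e1 : (J.card : ℝ≥0∞) * volume (ball (0 : E) τ) =
      ∫⁻ z, ∑ x ∈ J, (ball (c x) τ).indicator (fun _ => (1 : ℝ≥0∞)) z := by
    rw [lintegral_finsetSum]
    · rw [Finset.sum_congr rfl (fun x _ => by
        rw [lintegral_indicator_const measurableSet_ball, one_mul, Measure.addHaar_ball_center]),
        Finset.sum_const, nsmul_eq_mul]
    · intro x _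
      exact measurable_const.indicator measurableSet_ball
  rw [e1, mul_comm, ← lintegral_const_mul _ (by
    apply Finset.measurable_sum
    intro x _
    exact measurable_const.indicator measurableSet_ball),
    ← lintegral_indicator measurableSet_ball]
  apply lintegral_mono
  intro z'
  simp only
  have e2 : ∑ x ∈ J, (ball (c x) τ).indicator (fun _ => (1 : ℝ≥0∞)) z' =
      ((J.filter (fun x => z' ∈ ball (c x) τ)).card : ℝ≥0∞) := by
    rw [Finset.card_filter, Nat.cast_sum]
    apply Finset.sum_congr rfl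
    intro x _
    by_cases h : z' ∈ ball (c x) τ <;> simp [indicator, h]
  rw [e2]
  rcases (J.filter (fun x => z' ∈ ball (c x) τ)).eq_empty_or_nonempty with h0 | ⟨x, hx⟩
  · rw [h0]; simp
  · obtain ⟨hxJ, hxz⟩ := Finset.mem_filter.1 hx
    obtain ⟨h1, h2⟩ := hc x hxJ
    have hxz' : dist (c x) z' < τ := by rw [dist_comm]; exact hxz
    have hm : K < mu P (ρ₀ + τ) z' := h2.trans_le (mu_mono hxz')
    have hz' : z' ∈ ball (0 : E) (R + (ρ₀ + τ)) := by
      rw [mem_ball_zero_iff]
      have h3 := hPR x (Finset.mem_filter.1 hxJ).1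
      have h4 := dist_triangle x (c x) z'
      rw [dist_comm, dist_eq_norm] at h4
      have h5 : ‖z'‖ ≤ ‖x‖ + ‖z' - x‖ := by
        calc ‖z'‖ = ‖x + (z' - x)‖ := by congr 1; abel
          _ ≤ _ := norm_add_le _ _
      linarith
    rw [indicator_of_mem hz', pot_eq]
    have h6 : (J.filter (fun x => z' ∈ ball (c x) τ)).card ≤ mu P (ρ₀ + τ) z' := by
      apply Finset.card_le_card
      intro y hy
      obtain ⟨hyJ, hyz⟩ := Finset.mem_filter.1 hy
      rw [Finset.mem_filter]
      refine ⟨(Finset.mem_filter.1 hyJ).1, ?_⟩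
      have h3 := dist_triangle y (c y) z'
      have h4 := (hc y hyJ).1
      rw [mem_ball, dist_comm] at hyz
      linarith
    set m := mu P (ρ₀ + τ) z' with hmdef
    have h7 : a ^ (K + 1) * (m : ℝ) ≤ (a ^ 2) ^ m := by
      have e3 : (m : ℝ) ≤ 2 ^ m := by exact_mod_cast Nat.lt_two_pow_self.le
      have e4 : (2 : ℝ) ^ m ≤ a ^ m := pow_le_pow_left₀ (by norm_num) ha m
      have e5 : a ^ (K + 1) ≤ a ^ m := pow_le_pow_right₀ (by linarith) hm
      calc a ^ (K + 1) * (m : ℝ) ≤ a ^ m * a ^ m :=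
            mul_le_mul e5 (e3.trans e4) (by positivity) (by positivity)
        _ = (a ^ 2) ^ m := by rw [← pow_mul, ← pow_add]; congr 1; ring
    calc ENNReal.ofReal (a ^ (K + 1)) * ((J.filter (fun x => z' ∈ ball (c x) τ)).card : ℝ≥0∞)
        ≤ ENNReal.ofReal (a ^ (K + 1)) * (m : ℝ≥0∞) := by gcongr
      _ = ENNReal.ofReal (a ^ (K + 1) * m) := by
          rw [ENNReal.ofReal_mul (by positivity), ENNReal.ofReal_natCast]
      _ ≤ ENNReal.ofReal ((a ^ 2) ^ m) := ENNReal.ofReal_le_ofReal h7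
      _ = _ := by rw [ENNReal.ofReal_pow (by positivity)]

theorem piece [Nontrivial E] {ρ₀ τ a : ℝ} {K : ℕ} (hρ : 2 ≤ ρ₀) (hτ : 0 < τ) (ha : 2 ≤ a)
    (hK : 48 * a ^ 2 * ((ρ₀ + τ) / τ) ^ Module.finrank ℝ E ≤ a ^ (K + 1)) :
    ∃ R0 : ℝ, ∀ R : ℝ, R0 ≤ R → ∃ P : Finset E, Sep 2 P ∧ (∀ z, mu P ρ₀ z ≤ K) ∧
      (∀ x ∈ P, ‖x‖ ≤ R) ∧
      1 / (8 * a ^ 2 * (ρ₀ + τ) ^ Module.finrank ℝ E) * R ^ Module.finrank ℝ E ≤ P.card := by
  classical
  set n := Module.finrank ℝ E with hn
  have hn0 : n ≠ 0 := Module.finrank_pos.ne'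
  have hv := vb_pos (E := E)
  set ρ : ℝ := ρ₀ + τ with hρdef
  have hρ0 : 0 < ρ := by linarith
  -- the conditions on `R`
  have c1 : ∀ᶠ R : ℝ in atTop, (R + ρ) ^ n ≤ 2 * R ^ n := by
    have h1 : Tendsto (fun R : ℝ => (1 + ρ / R) ^ n) atTop (𝓝 ((1 + 0) ^ n)) := by
      apply Tendsto.pow
      exact tendsto_const_nhds.add (tendsto_const_nhds.div_atTop tendsto_id)
    rw [add_zero, one_pow] at h1
    filter_upwards [h1.eventually (gt_mem_nhds (show (1 : ℝ) < 2 by norm_num)),
      eventually_gt_atTop 0] with R h2 hR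
    have h3 : (R + ρ) ^ n = (1 + ρ / R) ^ n * R ^ n := by
      rw [← mul_pow]; congr 1; field_simp
    rw [h3]
    exact mul_le_mul_of_nonneg_right h2.le (by positivity)
  have c2 : ∀ᶠ R : ℝ in atTop, 4 * a ^ 2 * ρ ^ n ≤ R ^ n :=
    (tendsto_pow_atTop hn0).eventually (eventually_ge_atTop _)
  obtain ⟨R0, hR0⟩ := eventually_atTop.1 (c1.and (c2.and (eventually_gt_atTop 0)))
  refine ⟨R0, fun R hR => ?_⟩
  obtain ⟨h1, h2, hRpos⟩ := hR0 R hR
  set N : ℕ := ⌊R ^ n / (2 * a ^ 2 * ρ ^ n)⌋₊ with hN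
  have hNle : (N : ℝ) ≤ R ^ n / (2 * a ^ 2 * ρ ^ n) := Nat.floor_le (by positivity)
  have hNle' : 2 * a ^ 2 * ρ ^ n * N ≤ R ^ n := by
    rw [le_div_iff₀ (by positivity)] at hNle
    linarith
  have hNge : R ^ n / (4 * a ^ 2 * ρ ^ n) ≤ N := by
    have e1 : R ^ n / (2 * a ^ 2 * ρ ^ n) < N + 1 := Nat.lt_floor_add_one _
    have e2 : 1 ≤ R ^ n / (4 * a ^ 2 * ρ ^ n) := by
      rw [le_div_iff₀ (by positivity)]; linarith
    have e3 : R ^ n / (2 * a ^ 2 * ρ ^ n) = 2 * (R ^ n / (4 * a ^ 2 * ρ ^ n)) := by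
      field_simp
      ring
    linarith
  obtain ⟨P, hPN, hPs, hPR, hPi⟩ := construct (E := E) hRpos (ρ := ρ) (by linarith)
    (a := a ^ 2) (by nlinarith) (N := N) hNle' N le_rfl
  set J := P.filter (fun x => ∃ z, dist x z < ρ₀ ∧ K < mu P ρ₀ z) with hJ
  have hbad := (few_bad hPR (ρ₀ := ρ₀) (τ := τ) ha K).trans hPi
  rw [← hJ, vol_ball_enn 0 hτ, vol_ball_enn 0 (by linarith), ← hn] at hbad
  -- the factor `(1+c)^N ≤ 3`
  have h3 : (1 + 2 * a ^ 2 * ρ ^ n / R ^ n) ^ N ≤ 3 := by
    have e1 : 1 + 2 * a ^ 2 * ρ ^ n / R ^ n ≤ Real.exp (2 * a ^ 2 * ρ ^ n / R ^ n) := by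
      have := Real.add_one_le_exp (2 * a ^ 2 * ρ ^ n / R ^ n)
      linarith
    calc (1 + 2 * a ^ 2 * ρ ^ n / R ^ n) ^ N ≤ (Real.exp (2 * a ^ 2 * ρ ^ n / R ^ n)) ^ N :=
          pow_le_pow_left₀ (by positivity) e1 N
      _ = Real.exp (N * (2 * a ^ 2 * ρ ^ n / R ^ n)) := by rw [← Real.exp_nat_mul]
      _ ≤ Real.exp 1 := by
          apply Real.exp_le_exp.2
          rw [mul_div_assoc', div_le_one (by positivity)]
          linarith
      _ ≤ 3 := by have := Real.exp_one_lt_d9; linarith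
  have h4 : (J.card : ℝ) * (τ ^ n * a ^ (K + 1)) ≤ 3 * (R + ρ) ^ n := by
    have e1 : ENNReal.ofReal ((J.card : ℝ) * (τ ^ n * vb E) * a ^ (K + 1)) ≤
        ENNReal.ofReal (3 * ((R + ρ) ^ n * vb E)) := by
      rw [ENNReal.ofReal_mul (by positivity), ENNReal.ofReal_mul (by positivity),
        ENNReal.ofReal_natCast]
      refine hbad.trans ?_
      rw [ENNReal.ofReal_mul (by norm_num : (0 : ℝ) ≤ 3)]
      gcongr
    rw [ENNReal.ofReal_le_ofReal_iff (by positivity)] at e1
    have e2 : (J.card : ℝ) * (τ ^ n * a ^ (K + 1)) * vb E ≤ 3 * (R + ρ) ^ n * vb E := by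
      nlinarith
    exact le_of_mul_le_mul_right e2 hv
  have h5 : (J.card : ℝ) ≤ R ^ n / (8 * a ^ 2 * ρ ^ n) := by
    rw [le_div_iff₀ (by positivity)]
    have e1 : (J.card : ℝ) * (48 * a ^ 2 * ρ ^ n) ≤ J.card * (τ ^ n * a ^ (K + 1)) := by
      apply mul_le_mul_of_nonneg_left _ (by positivity)
      rw [div_pow] at hK
      have e2 := mul_le_mul_of_nonneg_left hK (show 0 ≤ τ ^ n by positivity)
      refine le_trans (le_of_eq ?_) e2
      field_simp
    linarith
  refine ⟨P \ J, hPs.mono Finset.sdiff_subset, ?_, ?_, ?_⟩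
  · intro z
    by_contra hcon
    push Not at hcon
    have hle : mu (P \ J) ρ₀ z ≤ mu P ρ₀ z := by
      apply Finset.card_le_card
      exact Finset.filter_subset_filter _ Finset.sdiff_subset
    have hpos : 0 < mu (P \ J) ρ₀ z := by omega
    obtain ⟨x, hx⟩ := Finset.card_pos.1 hpos
    obtain ⟨hx1, hx2⟩ := Finset.mem_filter.1 hx
    obtain ⟨hxP, hxJ⟩ := Finset.mem_sdiff.1 hx1
    apply hxJ
    rw [hJ, Finset.mem_filter]
    exact ⟨hxP, z, hx2, by omega⟩
  · intro x hx
    exact (hPR x (Finset.mem_sdiff.1 hx).1).le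
  · have h6 : (P \ J).card + J.card = P.card :=
      Finset.card_sdiff_add_card_eq_card (Finset.filter_subset _ _)
    have h7 : ((P \ J).card : ℝ) + J.card = N := by rw [← hPN]; exact_mod_cast h6
    have h8 : R ^ n / (4 * a ^ 2 * ρ ^ n) = R ^ n / (8 * a ^ 2 * ρ ^ n) +
        R ^ n / (8 * a ^ 2 * ρ ^ n) := by
      field_simp
      ring
    have h9 : 1 / (8 * a ^ 2 * ρ ^ n) * R ^ n = R ^ n / (8 * a ^ 2 * ρ ^ n) := by
      field_simp
    rw [h9]
    linarith

end

end Pool.Agent.N621.SP
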